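import Pool.Agent.Q112.ML.Stm

/-!
# Project ML: job EX (the extreme error)
-/

set_option autoImplicit false

namespace Pool.Agent.Q24.ML

open Finset Filter MeasureTheory ProbabilityTheory Pool.Agent.Q112.LE Pool.Agent.Q112.ML
open Pool.Agent.Q120.GM hiding cls
open scoped Topology

/-- The first `t` elements of the class of `1 + Q b` modulo `Q l`. -/
def blk (Q t : ℕ) (i : ℕ × ℕ) : Finset ℕ := (range t).image (fun s => 1 + Q * i.2 + Q * i.1 * s)

lemma card_blk {Q t : ℕ} {i : ℕ × ℕ} (h : 0 < Q * i.1) : (blk Q t i).card = t := by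
  unfold blk
  rw [card_image_of_injective, card_range]
  intro s s' hs
  simp only [] at hs
  have h1 : Q * i.1 * s = Q * i.1 * s' := by omega
  exact Nat.eq_of_mul_eq_mul_left h h1

lemma mem_blk {Q t n : ℕ} {i : ℕ × ℕ} : n ∈ blk Q t i ↔ ∃ s < t, 1 + Q * i.2 + Q * i.1 * s = n := by
  unfold blk
  simp only [mem_image, mem_range]

/-- the block lies in the class, up to the last element -/
lemma blk_sub_cls {Q t : ℕ} {i : ℕ × ℕ} :
    blk Q t i ⊆ cls (1 + Q * i.2 + Q * i.1 * (t - 1)) (Q * i.1) (1 + Q * i.2) := by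
  intro n hn
  rw [mem_blk] at hn
  obtain ⟨s, hs, rfl⟩ := hn
  simp only [cls, mem_filter, mem_Icc]
  refine ⟨⟨by omega, ?_⟩, ?_⟩
  · have : Q * i.1 * s ≤ Q * i.1 * (t - 1) := Nat.mul_le_mul_left _ (by omega)
    omega
  · exact Nat.ModEq.symm ((Nat.modEq_iff_dvd' (by omega)).2 ⟨s, by omega⟩)

lemma last_le {Q t X : ℕ} {i : ℕ × ℕ} (h1 : 1 + Q * i.2 < Q * i.1) (ht : 1 ≤ t) (h2 : Q * i.1 * t ≤ X) :
    1 + Q * i.2 + Q * i.1 * (t - 1) ≤ X := by
  obtain ⟨t', rfl⟩ : ∃ t', t = t' + 1 := ⟨t - 1, by omega⟩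
  rw [Nat.add_sub_cancel]
  rw [Nat.mul_add, Nat.mul_one] at h2
  omega

lemma blk_sub_win {Q t X : ℕ} {i : ℕ × ℕ} (h1 : 1 + Q * i.2 < Q * i.1) (ht : 1 ≤ t) (h2 : Q * i.1 * t ≤ X) :
    blk Q t i ⊆ win Q X i := by
  intro n hn
  have h3 := blk_sub_cls hn
  have h4 := last_le h1 ht h2
  simp only [win, cls, mem_filter, mem_Icc] at h3 ⊢
  exact ⟨⟨h3.1.1, h3.1.2.trans h4⟩, h3.2⟩

lemma blk_cop {Q t n : ℕ} {i : ℕ × ℕ} (hn : n ∈ blk Q t i) : Nat.Coprime n Q := by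
  rw [mem_blk] at hn
  obtain ⟨s, hs, rfl⟩ := hn
  have h1 : 1 + Q * i.2 + Q * i.1 * s = 1 + Q * (i.2 + i.1 * s) := by ring
  rw [h1, Nat.coprime_add_mul_left_left]
  exact Nat.coprime_one_left _

/-- lower bound for the probabilities -/
lemma level_ge {Q X n : ℕ} (hQ : 1 ≤ Q) (hn : 2 ≤ n) (hnX : n ≤ X) (hc : Nat.Coprime n Q)
    (hL : 1 ≤ Real.log X) : 1 / Real.log X ≤ level Q n := by
  unfold level
  rw [if_pos hc]
  have hn1 : (1 : ℝ) < n := by exact_mod_cast hn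
  have hl : 0 < Real.log n := Real.log_pos hn1
  have hl2 : Real.log n ≤ Real.log X := Real.log_le_log (by linarith) (by exact_mod_cast hnX)
  have hφ : (0 : ℝ) < Nat.totient Q := by exact_mod_cast Nat.totient_pos.2 hQ
  have hq : 1 ≤ (Q : ℝ) / Nat.totient Q := by
    rw [le_div_iff₀ hφ, one_mul]
    exact_mod_cast Nat.totient_le Q
  apply le_min
  · rw [div_le_one (by linarith)]
    exact hL
  · exact div_le_div₀ (by linarith) hq hl hl2

section prob

variable {Ω : Type} [MeasurableSpace Ω] {μ : Measure Ω} [IsProbabilityMeasure μ] {A : Ω → Set ℕ}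

lemma all_ge {Q X : ℕ} (hQ : 1 ≤ Q) (hA : IsModel μ (level Q) A) (hL : 1 ≤ Real.log X) (T : Finset ℕ)
    (hT : ∀ n ∈ T, 2 ≤ n ∧ n ≤ X ∧ Nat.Coprime n Q) :
    (1 / Real.log X) ^ T.card ≤ ∏ n ∈ T, level Q n := by
  rw [← prod_const]
  apply Finset.prod_le_prod
  · intro n _
    positivity
  · intro n hn
    obtain ⟨h1, h2, h3⟩ := hT n hn
    exact level_ge hQ h1 h2 h3 hL

lemma pair_le {Q X : ℕ} (hQ : 1 ≤ Q) (hA : IsModel μ (level Q) A) (hL : 1 ≤ Real.log X) (T T' : Finset ℕ)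
    (hT : ∀ n ∈ T, 2 ≤ n ∧ n ≤ X ∧ Nat.Coprime n Q) (hc : (T ∩ T').card ≤ 1) :
    μ.real (all A T ∩ all A T') ≤ Real.log X * (μ.real (all A T) * μ.real (all A T')) := by
  have h1 : all A T ∩ all A T' = all A (T ∪ T') := by
    ext ω
    simp only [all, Set.mem_inter_iff, Set.mem_ofPred_eq, mem_union]
    constructor
    · rintro ⟨h1, h2⟩ i (h3 | h3)
      · exact h1 i h3
      · exact h2 i h3
    · intro h
      exact ⟨fun i hi => h i (Or.inl hi), fun i hi => h i (Or.inr hi)⟩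
  rw [h1, real_all hA, real_all hA, real_all hA, ← prod_union_inter]
  have h2 : (1 / Real.log X) ^ (T ∩ T').card ≤ ∏ n ∈ T ∩ T', level Q n :=
    all_ge hQ hA hL _ (fun n hn => hT n (mem_of_mem_inter_left hn))
  have hLp : 0 < Real.log X := by linarith
  have h3 : 1 / Real.log X ≤ (1 / Real.log X) ^ (T ∩ T').card := by
    have h4 : 1 / Real.log X ≤ 1 := by
      rw [div_le_one hLp]
      exact hL
    have h5 := pow_le_pow_of_le_one (show (0 : ℝ) ≤ 1 / Real.log X by positivity) h4 hc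
    rwa [pow_one] at h5
  have h4 := h3.trans h2
  rw [div_le_iff₀ hLp] at h4
  have h5 : 0 ≤ ∏ n ∈ T ∪ T', level Q n := prod_nonneg fun n _ => level_nonneg Q n
  nlinarith

lemma pair_disj {Q : ℕ} (hA : IsModel μ (level Q) A) (T T' : Finset ℕ) (hc : Disjoint T T') :
    μ.real (all A T ∩ all A T') ≤ μ.real (all A T) * μ.real (all A T') := by
  have h1 : all A T ∩ all A T' = all A (T ∪ T') := by
    ext ω
    simp only [all, Set.mem_inter_iff, Set.mem_ofPred_eq, mem_union]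
    constructor
    · rintro ⟨h1, h2⟩ i (h3 | h3)
      · exact h1 i h3
      · exact h2 i h3
    · intro h
      exact ⟨fun i hi => h i (Or.inl hi), fun i hi => h i (Or.inr hi)⟩
  rw [h1, real_all hA, real_all hA, real_all hA, prod_union hc]

end prob

/-! ### the parameters -/

/-- the number of elements -/
noncomputable def tt (δ : ℝ) (X : ℕ) : ℕ := ⌈(2 - δ) * Real.log X / Real.log (Real.log X)⌉₊

/-- the scale of the modulus -/
noncomputable def kk (δ : ℝ) (Q X : ℕ) : ℕ := Nat.log 2 (X / (Q * tt δ X))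

/-- the properties of the parameters -/
structure Num (δ : ℝ) (Q k0 X : ℕ) (L l t : ℝ) (k : ℕ) : Prop where
  hX : 1 ≤ X
  hL : 4 ≤ L
  hl : 4 ≤ l
  hlL : l ≤ L
  t1 : (2 - δ) * L / l ≤ t
  t2 : t ≤ (2 - δ) * L / l + 1
  t3 : t ≤ L
  t4 : 2 ≤ t
  k1 : k0 ≤ k
  k2 : (Q : ℝ) * 2 ^ k * t ≤ X
  k3 : (X : ℝ) < 2 * (Q * 2 ^ k * t)

lemma tlog : Tendsto (fun X : ℕ => Real.log (X : ℝ)) atTop atTop :=
  Real.tendsto_log_atTop.comp tendsto_natCast_atTop_atTop

lemma tloglog : Tendsto (fun X : ℕ => Real.log (Real.log (X : ℝ))) atTop atTop :=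
  Real.tendsto_log_atTop.comp tlog

lemma num {δ : ℝ} (hδ : 0 < δ) (hδ1 : δ ≤ 1 / 4) {Q : ℕ} (hQ : 1 ≤ Q) (k0 : ℕ) : ∀ᶠ X : ℕ in atTop,
    Num δ Q k0 X (Real.log X) (Real.log (Real.log X)) (tt δ X) (kk δ Q X) := by
  filter_upwards [tlog.eventually_ge_atTop 4, tloglog.eventually_ge_atTop 4, eventually_ge_atTop 1,
    ev_power ((2 : ℝ) ^ k0 * Q) 1 (show (0 : ℝ) < 1 by norm_num)] with X h1 h2 h3 h4
  have hXr : (1 : ℝ) ≤ X := by exact_mod_cast h3
  obtain ⟨L, hL⟩ : ∃ L : ℝ, L = Real.log X := ⟨_, rfl⟩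
  obtain ⟨l, hl⟩ : ∃ l : ℝ, l = Real.log L := ⟨_, rfl⟩
  rw [← hL, ← hl] at h2 ⊢
  rw [← hL] at h1 h4
  rw [pow_one, Real.rpow_one] at h4
  have hlL : l ≤ L := by
    rw [hl]
    have := Real.log_le_sub_one_of_pos (show 0 < L by linarith)
    linarith
  have hlp : 0 < l := by linarith
  have hLp : 0 < L := by linarith
  have ha0 : 0 ≤ (2 - δ) * L / l := div_nonneg (mul_nonneg (by linarith) hLp.le) hlp.le
  have t1 : (2 - δ) * L / l ≤ (tt δ X : ℝ) := by
    unfold tt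
    rw [← hL, ← hl]
    exact Nat.le_ceil _
  have t2 : (tt δ X : ℝ) ≤ (2 - δ) * L / l + 1 := by
    unfold tt
    rw [← hL, ← hl]
    exact (Nat.ceil_lt_add_one ha0).le
  have t3 : (tt δ X : ℝ) ≤ L := by
    have h5 : (2 - δ) * L / l ≤ 2 * L / 4 := by
      apply div_le_div₀ (by linarith) (by nlinarith) (by norm_num) h2
    linarith
  have t4 : 2 ≤ tt δ X := by
    unfold tt
    rw [← hL, ← hl]
    have h5 : 1 < ⌈(2 - δ) * L / l⌉₊ := by
      rw [Nat.lt_ceil, Nat.cast_one, lt_div_iff₀ hlp]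
      nlinarith
    omega
  have t4' : (2 : ℝ) ≤ tt δ X := by exact_mod_cast t4
  have hQr : (1 : ℝ) ≤ Q := by exact_mod_cast hQ
  have hQt : 0 < Q * tt δ X := by positivity
  have h6 : 2 ^ k0 * (Q * tt δ X) ≤ X := by
    have h7 : (2 : ℝ) ^ k0 * (Q * tt δ X) ≤ X := by
      calc (2 : ℝ) ^ k0 * (Q * tt δ X) = 2 ^ k0 * Q * tt δ X := by ring
        _ ≤ 2 ^ k0 * Q * L := mul_le_mul_of_nonneg_left t3 (by positivity)
        _ ≤ X := h4
    exact_mod_cast h7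
  have h7 : 2 ^ k0 ≤ X / (Q * tt δ X) := (Nat.le_div_iff_mul_le hQt).2 h6
  have hz : X / (Q * tt δ X) ≠ 0 := by
    have : 0 < 2 ^ k0 := by positivity
    omega
  have k1 : k0 ≤ kk δ Q X := Nat.le_log_of_pow_le (by norm_num) h7
  have k2 : Q * 2 ^ kk δ Q X * tt δ X ≤ X := by
    have h8 : 2 ^ kk δ Q X ≤ X / (Q * tt δ X) := Nat.pow_log_le_self 2 hz
    have h9 := (Nat.le_div_iff_mul_le hQt).1 h8
    calc Q * 2 ^ kk δ Q X * tt δ X = 2 ^ kk δ Q X * (Q * tt δ X) := by ring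
      _ ≤ X := h9
  have k3 : X < 2 * (Q * 2 ^ kk δ Q X * tt δ X) := by
    have h8 : X / (Q * tt δ X) < 2 ^ (kk δ Q X + 1) := Nat.lt_pow_succ_log_self (by norm_num) _
    have h9 := (Nat.div_lt_iff_lt_mul hQt).1 h8
    calc X < 2 ^ (kk δ Q X + 1) * (Q * tt δ X) := h9
      _ = 2 * (Q * 2 ^ kk δ Q X * tt δ X) := by ring
  exact ⟨h3, h1, h2, hlL, t1, t2, t3, t4', k1, by exact_mod_cast k2, by exact_mod_cast k3⟩

/-! ### the probability -/

lemma idx_snd {Q k : ℕ} {i : ℕ × ℕ} (hQ : 1 ≤ Q) (hi : i ∈ idx Q k) : 1 ≤ i.2 := by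
  unfold idx at hi
  rw [mem_filter] at hi
  obtain ⟨_, h1, h2, _⟩ := hi
  omega

theorem ex_prob (hSE : S_SE) (hID : S_ID) {δ : ℝ} (hδ : 0 < δ) (hδ1 : δ ≤ 1 / 4) {Q : ℕ} (hQ : 1 ≤ Q)
    {Ω : Type} [MeasurableSpace Ω] {μ : Measure Ω} [IsProbabilityMeasure μ] {A : Ω → Set ℕ}
    (hA : IsModel μ (level Q) A) : ∀ᶠ X : ℕ in atTop,
    μ.real {ω | ∀ i ∈ idx Q (kk δ Q X), ω ∉ all A (blk Q (tt δ X) i)} ≤ (X : ℝ) ^ (-(δ / 8)) := by
  obtain ⟨k0, hk0⟩ := eventually_atTop.1 (hID Q hQ)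
  filter_upwards [num hδ hδ1 hQ (max k0 1), ev_power (512 * Q ^ 2) 3 (show 0 < δ / 4 by positivity),
    ev_power (12000 * Q) 3 (show (0 : ℝ) < 1 / 2 by norm_num),
    ev_power 2 0 (show (0:ℝ) < δ / 8 by positivity), ev_power 2 0 (show (0 : ℝ) < 1 / 4 by norm_num),
    tlog.eventually (Real.isLittleO_log_id_atTop.bound (show 0 < δ / 2 by positivity))] with X hN hp1 hp2 hp3 hp4 hp5
  obtain ⟨hX, hL4, hl4, hlL, t1, t2, t3, t4, k1, k2, k3⟩ := hN
  obtain ⟨k, hk⟩ : ∃ k : ℕ, k = kk δ Q X := ⟨_, rfl⟩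
  obtain ⟨t, ht⟩ : ∃ t : ℕ, t = tt δ X := ⟨_, rfl⟩
  rw [← hk] at k1 k2 k3 ⊢
  rw [← ht] at t1 t2 t3 t4 k2 k3 ⊢
  obtain ⟨L, hL⟩ : ∃ L : ℝ, L = Real.log X := ⟨_, rfl⟩
  obtain ⟨l, hl⟩ : ∃ l : ℝ, l = Real.log L := ⟨_, rfl⟩
  rw [← hL] at hL4 hl4 hlL t1 t2 t3 hp1 hp2 hp5
  rw [← hl] at hl4 hlL t1 t2 hp5
  have hXr : (1 : ℝ) ≤ X := by exact_mod_cast hX
  have hXp : (0 : ℝ) < X := by linarith
  have hQr : (1 : ℝ) ≤ Q := by exact_mod_cast hQ
  have hLp : 0 < L := by linarith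
  have hlp : 0 < l := by linarith
  have hlδ : l ≤ δ / 2 * L := by
    simp only [id] at hp5
    rw [Real.norm_of_nonneg hlp.le, Real.norm_of_nonneg hLp.le] at hp5
    exact hp5
  obtain ⟨hi, hcard, hdep⟩ := hk0 k (by omega)
  obtain ⟨⟨Dep, hD1, hD2, hD3⟩, hint⟩ := hdep X hX
  obtain ⟨W, hW⟩ : ∃ W : ℝ, W = 2 ^ k := ⟨_, rfl⟩
  have hW4 : (4 : ℝ) ^ k = W ^ 2 := by
    rw [hW, ← pow_mul, mul_comm, pow_mul]
    norm_num
  rw [hW4] at hcard hD3
  rw [← hW] at k2 k3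
  have hW1 : 1 ≤ W := by
    rw [hW]
    exact one_le_pow₀ (by norm_num)
  have hWp : 0 < W := by linarith
  have hkp : (1 : ℝ) ≤ k := by exact_mod_cast (le_max_right k0 1).trans k1
  have hQW : (X : ℝ) ≤ 2 * Q * W * L := by
    have h1 : 2 * (Q * W * t) ≤ 2 * (Q * W * L) := by
      have := mul_le_mul_of_nonneg_left t3 (show 0 ≤ Q * W by positivity)
      linarith
    linarith
  have hWX : W ≤ X := by
    have h1 : W * 1 ≤ W * (Q * t) := mul_le_mul_of_nonneg_left (by nlinarith) hWp.le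
    nlinarith
  have hkL : (k : ℝ) ≤ 2 * L := by
    have h1 := Real.log_le_log hWp hWX
    rw [hW, Real.log_pow, ← hL] at h1
    have h2 : (1 : ℝ) / 2 ≤ Real.log 2 := by
      have := Real.log_two_gt_d9
      linarith
    nlinarith
  obtain ⟨N, hNc⟩ : ∃ N : ℝ, N = ((idx Q k).card : ℝ) := ⟨_, rfl⟩
  rw [← hNc] at hcard hD3 hD2
  have hN1 : W ^ 2 ≤ N * (128 * L) := by
    have h1 : W ^ 2 ≤ N * (64 * k) := by
      rw [div_le_iff₀ (by positivity)] at hcard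
      exact hcard
    have hN0 : 0 ≤ N := by
      rw [hNc]
      positivity
    have h2 := mul_le_mul_of_nonneg_left hkL hN0
    nlinarith
  have hNp : 0 < N := by
    have h1 : 0 < W ^ 2 := by positivity
    by_contra hcon
    push Not at hcon
    have : N * (128 * L) ≤ 0 := mul_nonpos_of_nonpos_of_nonneg hcon (by positivity)
    linarith
  have hne : (idx Q k).Nonempty := by
    rw [← card_pos]
    rw [hNc] at hNp
    exact_mod_cast hNp
  have ht1 : 1 ≤ t := by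
    have : (1 : ℝ) ≤ t := by linarith
    exact_mod_cast this
  -- the blocks
  have hqt : ∀ i ∈ idx Q k, Q * i.1 * t ≤ X := by
    intro i hii
    have h1 := (hi i hii).2.2.2.2
    rw [← hW] at h1
    have h2 : (Q : ℝ) * i.1 * t ≤ X := by
      refine le_trans ?_ k2
      apply mul_le_mul_of_nonneg_right _ (by positivity)
      exact mul_le_mul_of_nonneg_left h1 (by positivity)
    exact_mod_cast h2
  have hblk : ∀ i ∈ idx Q k, ∀ n ∈ blk Q t i, 2 ≤ n ∧ n ≤ X ∧ Nat.Coprime n Q := by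
    intro i hii n hn
    refine ⟨?_, ?_, blk_cop hn⟩
    · rw [mem_blk] at hn
      obtain ⟨s, _, rfl⟩ := hn
      have h1 := idx_snd hQ hii
      have h2 : 1 ≤ Q * i.2 := Nat.one_le_iff_ne_zero.2 (by positivity)
      omega
    · have h1 := blk_sub_win (hi i hii).1 ht1 (hqt i hii) hn
      simp only [win, cls, mem_filter, mem_Icc] at h1
      exact h1.1.2
  have hLX : 1 ≤ Real.log X := by
    rw [← hL]
    linarith
  obtain ⟨z, hz⟩ : ∃ z : ℝ, z = (X : ℝ) ^ (δ / 8) := ⟨_, rfl⟩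
  have hzp : 0 < z := by
    rw [hz]
    positivity
  have hz2 : (X : ℝ) ^ (δ / 4) = z ^ 2 := by
    rw [hz, ← Real.rpow_natCast, ← Real.rpow_mul hXp.le]
    congr 1
    push_cast
    ring
  have hz4 : (X : ℝ) ^ (-(2 - δ / 2)) = z ^ 4 / X ^ 2 := by
    have e1 : z ^ 4 = (X : ℝ) ^ (δ / 2) := by
      rw [hz, ← Real.rpow_natCast, ← Real.rpow_mul hXp.le]
      congr 1
      push_cast
      ring
    have e2 : (X : ℝ) ^ 2 = (X : ℝ) ^ (2 : ℝ) := by
      rw [← Real.rpow_natCast]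
      norm_num
    rw [e1, e2, ← Real.rpow_sub hXp]
    congr 1
    ring
  rw [pow_zero, mul_one] at hp3 hp4
  rw [← hz] at hp3
  rw [hz2] at hp1
  -- the probabilities
  have hP : ∀ i ∈ idx Q k, (X : ℝ) ^ (-(2 - δ / 2)) ≤ μ.real (all A (blk Q t i)) := by
    intro i hii
    rw [real_all hA]
    refine le_trans ?_ (all_ge hQ hA hLX _ (hblk i hii))
    rw [card_blk (by
      have := (hi i hii).1
      omega), ← hL, Real.rpow_def_of_pos hXp, ← hL]
    have h1 : (1 / L) ^ t = Real.exp (-(t * l)) := by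
      rw [one_div, inv_pow, Real.exp_neg, mul_comm, Real.exp_mul, hl, Real.exp_log hLp, Real.rpow_natCast]
    rw [h1]
    apply Real.exp_le_exp.2
    have h2 : (t : ℝ) * l ≤ ((2 - δ) * L / l + 1) * l := mul_le_mul_of_nonneg_right t2 hlp.le
    have h3 : ((2 - δ) * L / l + 1) * l = (2 - δ) * L + l := by
      field_simp
    rw [h3] at h2
    nlinarith
  have key := hSE Ω μ (ℕ × ℕ) (idx Q k) (fun i => all A (blk Q t i)) Dep ((X : ℝ) ^ (-(2 - δ / 2))) L hne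
    (fun i _ => meas_all hA _) (by positivity) (by linarith) hP (by
      intro i hii j hjj hij hD
      apply pair_disj hA
      exact Disjoint.mono (blk_sub_win (hi i hii).1 ht1 (hqt i hii)) (blk_sub_win (hi j hjj).1 ht1 (hqt j hjj))
        (hD1 i hii j hjj hij hD)) (by
      intro i hii j hjj hij _
      rw [hL]
      apply pair_le hQ hA hLX _ _ (hblk i hii)
      have h1 := hint i hii j hjj hij
      have h2 : (blk Q t i ∩ blk Q t j).card ≤ (win Q X i ∩ win Q X j).card :=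
        card_le_card (inter_subset_inter (blk_sub_win (hi i hii).1 ht1 (hqt i hii))
          (blk_sub_win (hi j hjj).1 ht1 (hqt j hjj)))
      have h3 : (X : ℝ) / (Q * i.1 * j.1) < 1 := by
        have h4 := (hi i hii).2.2.2.1
        have h5 := (hi j hjj).2.2.2.1
        rw [← hW] at h4 h5
        have h6 : W / 8 * (W / 8) ≤ (i.1 : ℝ) * j.1 :=
          mul_le_mul h4.le h5.le (by positivity) (by positivity)
        have h7 : Q * (W / 8 * (W / 8)) ≤ Q * ((i.1 : ℝ) * j.1) :=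
          mul_le_mul_of_nonneg_left h6 (by positivity)
        have h8 : 128 * L < W := by
          by_contra hcon
          push Not at hcon
          have h9 : (X : ℝ) ≤ 2 * Q * (128 * L) * L := by
            refine hQW.trans ?_
            apply mul_le_mul_of_nonneg_right _ hLp.le
            exact mul_le_mul_of_nonneg_left hcon (by positivity)
          have h10 : (X : ℝ) ^ (1 / 2 : ℝ) ≤ X := by
            have h11 := Real.rpow_le_rpow_of_exponent_le hXr (show (1 / 2 : ℝ) ≤ 1 by norm_num)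
            rwa [Real.rpow_one] at h11
          have h12 : 12000 * Q * L ^ 3 ≤ X := hp2.trans h10
          have h13 : 256 * Q * L ^ 2 < 12000 * Q * L ^ 3 := by
            have h14 : 0 < Q * L ^ 2 := by positivity
            nlinarith
          nlinarith
        rw [div_lt_one (by
          have : 0 < Q * (W / 8 * (W / 8)) := by positivity
          linarith)]
        have h9 : 2 * Q * W * L < Q * (W / 8 * (W / 8)) := by
          have : 0 < Q * W := by positivity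
          nlinarith
        linarith
      have h4 : ((win Q X i ∩ win Q X j).card : ℝ) < 2 := by linarith
      have h5 : (win Q X i ∩ win Q X j).card < 2 := by exact_mod_cast h4
      omega)
  refine key.trans ?_
  rw [← hNc, hz4, Real.rpow_neg hXp.le, ← hz]
  have e1 : 1 / (N * (z ^ 4 / X ^ 2)) ≤ z⁻¹ / 2 := by
    have h1 : (X : ℝ) ^ 2 ≤ (2 * Q * W * L) ^ 2 := pow_le_pow_left₀ hXp.le hQW 2
    have h2 : (X : ℝ) ^ 2 ≤ N * z ^ 2 := by
      have h3 : (2 * Q * W * L) ^ 2 = 4 * Q ^ 2 * L ^ 2 * W ^ 2 := by ring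
      have h4 : 4 * Q ^ 2 * L ^ 2 * W ^ 2 ≤ 4 * Q ^ 2 * L ^ 2 * (N * (128 * L)) :=
        mul_le_mul_of_nonneg_left hN1 (by positivity)
      have h5 : 4 * Q ^ 2 * L ^ 2 * (N * (128 * L)) = N * (512 * Q ^ 2 * L ^ 3) := by ring
      have h6 : N * (512 * Q ^ 2 * L ^ 3) ≤ N * z ^ 2 := mul_le_mul_of_nonneg_left hp1 hNp.le
      linarith
    have h3 : 1 / (N * (z ^ 4 / X ^ 2)) = X ^ 2 / (N * z ^ 4) := by
      field_simp
    have h4 : z⁻¹ / 2 = 1 / (2 * z) := by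
      field_simp
    rw [h3, h4, div_le_div_iff₀ (by positivity) (by positivity)]
    have h5 : N * z ^ 2 * (2 * z) ≤ N * z ^ 4 := by
      have h6 : 0 ≤ N * z ^ 3 := by positivity
      nlinarith
    have h6 : (X : ℝ) ^ 2 * (2 * z) ≤ N * z ^ 2 * (2 * z) := mul_le_mul_of_nonneg_right h2 (by positivity)
    linarith
  have e2 : (Dep.card : ℝ) / N ^ 2 * (L - 1) ≤ z⁻¹ / 2 := by
    have h1 : (Dep.card : ℝ) / N ^ 2 ≤ 2000 * (X / Q + 1) / W ^ 2 := by
      rw [div_le_iff₀ (by positivity)]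
      exact hD3
    have h2 : (X : ℝ) / Q + 1 ≤ 3 * (W * L) := by
      have h3 : (X : ℝ) / Q ≤ 2 * W * L := by
        rw [div_le_iff₀ (by linarith)]
        linarith
      nlinarith
    have h3 : 2000 * (X / Q + 1) / W ^ 2 ≤ 6000 * L / W := by
      rw [div_le_div_iff₀ (by positivity) (by positivity)]
      have h4 : 2000 * ((X : ℝ) / Q + 1) * W ≤ 2000 * (3 * (W * L)) * W := by
        apply mul_le_mul_of_nonneg_right _ hWp.le
        linarith
      nlinarith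
    have h4 : (Dep.card : ℝ) / N ^ 2 * (L - 1) ≤ 6000 * L / W * L :=
      mul_le_mul (h1.trans h3) (by linarith) (by linarith) (by positivity)
    have h5 : 6000 * L / W * L ≤ 12000 * Q * L ^ 3 / X := by
      have h6 : 6000 * L / W * L = 6000 * L ^ 2 / W := by ring
      rw [h6, div_le_div_iff₀ hWp hXp]
      have h7 : 6000 * L ^ 2 * (X : ℝ) ≤ 6000 * L ^ 2 * (2 * Q * W * L) :=
        mul_le_mul_of_nonneg_left hQW (by positivity)
      linarith
    obtain ⟨r, hr⟩ : ∃ r : ℝ, r = (X : ℝ) ^ (1 / 2 : ℝ) := ⟨_, rfl⟩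
    have hrp : 0 < r := by
      rw [hr]
      positivity
    have hrr : (X : ℝ) = r * r := by
      rw [hr, ← Real.rpow_add hXp]
      norm_num
    have h6 : 12000 * Q * L ^ 3 / X ≤ 1 / r := by
      rw [div_le_div_iff₀ hXp hrp]
      rw [← hr] at hp2
      nlinarith
    have h7 : 2 * z ≤ r := by
      have h8 : z ≤ (X : ℝ) ^ (1 / 4 : ℝ) := by
        rw [hz]
        exact Real.rpow_le_rpow_of_exponent_le hXr (by linarith)
      have h9 : r = (X : ℝ) ^ (1 / 4 : ℝ) * (X : ℝ) ^ (1 / 4 : ℝ) := by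
        rw [hr, ← Real.rpow_add hXp]
        norm_num
      rw [h9]
      exact mul_le_mul hp4 h8 hzp.le (by positivity)
    have h8 : 1 / r ≤ z⁻¹ / 2 := by
      have h9 : z⁻¹ / 2 = 1 / (2 * z) := by
        field_simp
      rw [h9]
      exact one_div_le_one_div_of_le (by positivity) h7
    linarith
  linarith

/-! ### the error in one block -/

lemma kap_le {Q q : ℕ} (hQ : 1 ≤ Q) : kap Q q ≤ Q := by
  unfold kap
  have h0 : 0 < Nat.gcd q Q := Nat.gcd_pos_of_pos_right _ hQ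
  have h1 : (1 : ℝ) ≤ Nat.totient (Nat.gcd q Q) := by exact_mod_cast Nat.totient_pos.2 h0
  have h2 : ((Nat.gcd q Q : ℕ) : ℝ) ≤ Q := by exact_mod_cast Nat.le_of_dvd hQ (Nat.gcd_dvd_right q Q)
  rw [div_le_iff₀ (by linarith)]
  have h3 : (0 : ℝ) ≤ Q := by positivity
  nlinarith

lemma psi_ge {S : Set ℕ} {x q a : ℕ} {T : Finset ℕ} {b : ℝ} (h1 : T ⊆ cls x q a) (h2 : ∀ n ∈ T, n ∈ S)
    (h3 : ∀ n ∈ T, b ≤ Real.log n) : T.card * b ≤ psi S x q a := by
  unfold psi sm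
  have h4 : ∑ n ∈ T, Real.log n * ind S n ≤ ∑ n ∈ cls x q a, Real.log n * ind S n := by
    apply sum_le_sum_of_subset_of_nonneg h1
    intro n _ _
    apply mul_nonneg (Real.log_natCast_nonneg n)
    unfold ind
    exact Set.indicator_nonneg (fun _ _ => zero_le_one) _
  refine le_trans ?_ h4
  rw [← nsmul_eq_mul, ← sum_const]
  apply sum_le_sum
  intro n hn
  unfold ind
  rw [Set.indicator_of_mem (h2 n hn), mul_one]
  exact h3 n hn

theorem det (hID : S_ID) {ε δ : ℝ} (hε : 0 < ε) (hε1 : ε ≤ 1 / 2) (hδ : δ = ε / 10) {Q : ℕ} (hQ : 1 ≤ Q) :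
    ∀ᶠ X : ℕ in atTop, ∀ S : Set ℕ, ∀ i ∈ idx Q (kk δ Q X), (∀ n ∈ blk Q (tt δ X) i, n ∈ S) →
      ∃ x q a : ℕ, (X : ℝ) ^ (1 - ε / 2) ≤ x ∧ x ≤ X ∧ Q ∣ q ∧ 1 ≤ q ∧ q ≤ x ∧ a < q ∧ Nat.Coprime a q ∧
        (√2 - ε) * √((x : ℝ) / q) * Real.log x ^ (3 / 2 : ℝ) / √(Real.log (Real.log x)) ≤
          psi S x q a - kap Q q * ((x : ℝ) / q) := by
  have hδ0 : 0 < δ := by
    rw [hδ]
    positivity
  have hδ1 : δ ≤ 1 / 20 := by linarith
  obtain ⟨k0, hk0⟩ := eventually_atTop.1 (hID Q hQ)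
  filter_upwards [num hδ0 (by linarith) hQ (max k0 1), ev_power 16 1 (show 0 < ε / 2 by positivity),
    ev_power 64 1 hδ0, ev_power 16 1 (show (0 : ℝ) < 1 / 2 by norm_num), tloglog.eventually_ge_atTop (1 / δ),
    tlog.eventually_ge_atTop (Q / δ)] with X hN hp1 hp2 hp3 hp4 hp5
  intro S i hi0 hS
  obtain ⟨hX, hL4, hl4, hlL, t1, t2, t3, t4, k1, k2, k3⟩ := hN
  obtain ⟨k, hk⟩ : ∃ k : ℕ, k = kk δ Q X := ⟨_, rfl⟩
  obtain ⟨t, ht⟩ : ∃ t : ℕ, t = tt δ X := ⟨_, rfl⟩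
  rw [← hk] at k1 k2 k3 hi0
  rw [← ht] at t1 t2 t3 t4 k2 k3 hS
  obtain ⟨L, hL⟩ : ∃ L : ℝ, L = Real.log X := ⟨_, rfl⟩
  obtain ⟨l, hl⟩ : ∃ l : ℝ, l = Real.log L := ⟨_, rfl⟩
  rw [← hL] at hL4 hl4 hlL t1 t2 t3 hp1 hp2 hp3 hp4 hp5
  rw [← hl] at hl4 hlL t1 t2 hp4
  rw [pow_one] at hp1 hp2 hp3
  have hXr : (1 : ℝ) ≤ X := by exact_mod_cast hX
  have hXp : (0 : ℝ) < X := by linarith
  have hQr : (1 : ℝ) ≤ Q := by exact_mod_cast hQ
  have hLp : 0 < L := by linarith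
  have hlp : 0 < l := by linarith
  obtain ⟨hi, _, _⟩ := hk0 k (by omega)
  obtain ⟨i1, i2, i3, i4, i5⟩ := hi i hi0
  obtain ⟨W, hW⟩ : ∃ W : ℝ, W = 2 ^ k := ⟨_, rfl⟩
  rw [← hW] at k2 k3 i4 i5
  have hWp : 0 < W := by
    rw [hW]
    positivity
  have ht2 : 2 ≤ t := by exact_mod_cast t4
  obtain ⟨q, hq⟩ : ∃ q : ℕ, q = Q * i.1 := ⟨_, rfl⟩
  obtain ⟨a, ha⟩ : ∃ a : ℕ, a = 1 + Q * i.2 := ⟨_, rfl⟩
  obtain ⟨x, hx⟩ : ∃ x : ℕ, x = 1 + Q * i.2 + Q * i.1 * (t - 1) := ⟨_, rfl⟩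
  have hqr : (q : ℝ) = Q * i.1 := by
    rw [hq]
    push_cast
    ring
  have hqt : Q * i.1 * t ≤ X := by
    have h2 : (Q : ℝ) * i.1 * t ≤ X := by
      refine le_trans ?_ k2
      apply mul_le_mul_of_nonneg_right _ (by positivity)
      exact mul_le_mul_of_nonneg_left i5 (by positivity)
    exact_mod_cast h2
  have hxX : x ≤ X := by
    rw [hx]
    exact last_le i1 (by omega) hqt
  have hq0 : 0 < q := by omega
  have hq0r : (0 : ℝ) < q := by exact_mod_cast hq0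
  have hqx : q ≤ x := by
    have h1 : Q * i.1 * 1 ≤ Q * i.1 * (t - 1) := Nat.mul_le_mul_left _ (by omega)
    omega
  -- the size of `q`
  have hqL : (X : ℝ) ≤ 16 * L * q := by
    have h1 : Q * (W / 8) ≤ (q : ℝ) := by
      rw [hqr]
      exact mul_le_mul_of_nonneg_left i4.le (by positivity)
    have h2 : 2 * (Q * W * t) ≤ 2 * (Q * W * L) := by
      have := mul_le_mul_of_nonneg_left t3 (show 0 ≤ Q * W by positivity)
      linarith
    have h3 : 16 * L * (Q * (W / 8)) ≤ 16 * L * q := mul_le_mul_of_nonneg_left h1 (by positivity)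
    nlinarith
  have hqxr : (q : ℝ) ≤ x := by exact_mod_cast hqx
  have hxp : (0 : ℝ) < x := by linarith
  have hxL : (X : ℝ) ≤ 16 * L * x := by
    have := mul_le_mul_of_nonneg_left hqxr (show 0 ≤ 16 * L by positivity)
    linarith
  have hxXr : (x : ℝ) ≤ X := by exact_mod_cast hxX
  have g1 : (X : ℝ) ^ (1 - ε / 2) ≤ x := by
    have h1 : (X : ℝ) = (X : ℝ) ^ (ε / 2) * (X : ℝ) ^ (1 - ε / 2) := by
      rw [← Real.rpow_add hXp]
      norm_num
    have h2 : 16 * L * x ≤ (X : ℝ) ^ (ε / 2) * x := mul_le_mul_of_nonneg_right hp1 hxp.le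
    have h3 : (X : ℝ) ^ (ε / 2) * (X : ℝ) ^ (1 - ε / 2) ≤ (X : ℝ) ^ (ε / 2) * x := by
      rw [← h1]
      linarith
    exact le_of_mul_le_mul_left h3 (by positivity)
  have hlx1 : Real.log x ≤ L := by
    rw [hL]
    exact Real.log_le_log hxp hxXr
  have hlx2 : L / 2 ≤ Real.log x := by
    have h1 : (X : ℝ) = (X : ℝ) ^ (1 / 2 : ℝ) * (X : ℝ) ^ (1 / 2 : ℝ) := by
      rw [← Real.rpow_add hXp]
      norm_num
    have h2 : 16 * L * x ≤ (X : ℝ) ^ (1 / 2 : ℝ) * x := mul_le_mul_of_nonneg_right hp3 hxp.le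
    have h3 : (X : ℝ) ^ (1 / 2 : ℝ) * (X : ℝ) ^ (1 / 2 : ℝ) ≤ (X : ℝ) ^ (1 / 2 : ℝ) * x := by
      rw [← h1]
      linarith
    have h4 : (X : ℝ) ^ (1 / 2 : ℝ) ≤ x := le_of_mul_le_mul_left h3 (by positivity)
    have h5 := Real.log_le_log (by positivity) h4
    rw [Real.log_rpow hXp, ← hL] at h5
    linarith
  have hδl : 1 ≤ δ * l := by
    rw [div_le_iff₀ hδ0] at hp4
    linarith
  have hQL : (Q : ℝ) ≤ δ * L := by
    rw [div_le_iff₀ hδ0] at hp5
    linarith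
  have hllx : (1 - δ) * l ≤ Real.log (Real.log x) := by
    have h1 := Real.log_le_log (by positivity) hlx2
    rw [Real.log_div hLp.ne' (by norm_num), ← hl] at h1
    have h2 : Real.log 2 < 1 := by
      have := Real.log_two_lt_d9
      linarith
    linarith
  -- the size of `a`
  have har : (q : ℝ) ≤ 4 * a := by
    have : q ≤ 4 * a := by omega
    exact_mod_cast this
  have hap : (0 : ℝ) < a := by linarith
  have hla : (1 - δ) * L ≤ Real.log a := by
    have h0 : (X : ℝ) ≤ 64 * L * a := by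
      have := mul_le_mul_of_nonneg_left har (show 0 ≤ 16 * L by positivity)
      linarith
    have h1 : (X : ℝ) = (X : ℝ) ^ δ * (X : ℝ) ^ (1 - δ) := by
      rw [← Real.rpow_add hXp]
      norm_num
    have h2 : 64 * L * a ≤ (X : ℝ) ^ δ * a := mul_le_mul_of_nonneg_right hp2 hap.le
    have h3 : (X : ℝ) ^ δ * (X : ℝ) ^ (1 - δ) ≤ (X : ℝ) ^ δ * a := by
      rw [← h1]
      linarith
    have h4 : (X : ℝ) ^ (1 - δ) ≤ a := le_of_mul_le_mul_left h3 (by positivity)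
    have h5 := Real.log_le_log (by positivity) h4
    rwa [Real.log_rpow hXp, ← hL] at h5
  have hpsi : (t : ℝ) * ((1 - δ) * L) ≤ psi S x q a := by
    have h1 := psi_ge (b := (1 - δ) * L) (blk_sub_cls (Q := Q) (t := t) (i := i)) hS (by
      intro n hn
      refine hla.trans ?_
      apply Real.log_le_log hap
      rw [mem_blk] at hn
      obtain ⟨s, _, rfl⟩ := hn
      have : a ≤ 1 + Q * i.2 + Q * i.1 * s := by
        rw [ha]
        exact Nat.le_add_right _ _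
      exact_mod_cast this)
    rw [card_blk (by omega), ← hx, ← hq, ← ha] at h1
    exact h1
  have hxq : (x : ℝ) / q ≤ t := by
    rw [div_le_iff₀ hq0r]
    have h1 : x ≤ t * q := by
      have h2 := last_le (X := Q * i.1 * t) i1 (by omega) le_rfl
      rw [hx, hq]
      calc _ ≤ Q * i.1 * t := h2
        _ = _ := by ring
    exact_mod_cast h1
  have hxq0 : 0 ≤ (x : ℝ) / q := by positivity
  have hmain : (t : ℝ) * ((1 - 2 * δ) * L) ≤ psi S x q a - kap Q q * ((x : ℝ) / q) := by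
    have h1 : kap Q q * ((x : ℝ) / q) ≤ Q * t :=
      mul_le_mul (kap_le hQ) hxq hxq0 (by positivity)
    have h2 : (t : ℝ) * Q ≤ t * (δ * L) := mul_le_mul_of_nonneg_left hQL (by positivity)
    nlinarith
  refine ⟨x, q, a, g1, hxX, ⟨i.1, hq⟩, hq0, hqx, by omega, by rw [ha, hq]; exact i2, le_trans ?_ hmain⟩
  -- the last inequality
  have s2 : √2 ^ 2 = 2 := Real.sq_sqrt (by norm_num)
  have s1 : 1.4 ≤ √2 := by
    apply Real.le_sqrt_of_sq_le
    norm_num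
  have s3 : √2 ≤ 1.5 := by
    rw [Real.sqrt_le_left (by norm_num)]
    norm_num
  have hse : 0 < √2 - ε := by linarith
  have hlx0 : 0 < Real.log x := by linarith
  have h32 : Real.log x ^ (3 / 2 : ℝ) ≤ L * √L := by
    have h1 : Real.log x ^ (3 / 2 : ℝ) ≤ L ^ (3 / 2 : ℝ) :=
      Real.rpow_le_rpow hlx0.le hlx1 (by norm_num)
    have h2 : L ^ (3 / 2 : ℝ) = L * √L := by
      rw [Real.sqrt_eq_rpow, show (3 / 2 : ℝ) = 1 + 1 / 2 by norm_num, Real.rpow_add hLp, Real.rpow_one]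
    rw [← h2]
    exact h1
  have hl1p : 0 < (1 - δ) * l := mul_pos (by linarith) hlp
  have hsl : √((1 - δ) * l) ≤ √(Real.log (Real.log x)) := Real.sqrt_le_sqrt hllx
  have hslp : 0 < √((1 - δ) * l) := Real.sqrt_pos.2 hl1p
  have hst : √((x : ℝ) / q) ≤ √t := Real.sqrt_le_sqrt hxq
  have hcore : (√2 - ε) * √L ≤ (1 - 2 * δ) * (√t * √((1 - δ) * l)) := by
    have h1 : ((√2 - ε) * √L) ^ 2 ≤ ((1 - 2 * δ) * (√t * √((1 - δ) * l))) ^ 2 := by
      rw [mul_pow, mul_pow, mul_pow, Real.sq_sqrt hLp.le, Real.sq_sqrt (by positivity), Real.sq_sqrt hl1p.le]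
      have h2 : (√2 - ε) ^ 2 ≤ 2 - 2 * ε := by nlinarith
      have h3 : (2 - δ) * L ≤ t * l := by
        rw [div_le_iff₀ hlp] at t1
        exact t1
      have h4 : 2 - 2 * ε ≤ (1 - 2 * δ) ^ 2 * ((1 - δ) * (2 - δ)) := by
        have h5 : 1 - 4 * δ ≤ (1 - 2 * δ) ^ 2 := by nlinarith
        have h6 : 2 - 3 * δ ≤ (1 - δ) * (2 - δ) := by nlinarith
        have h7 : (1 - 4 * δ) * (2 - 3 * δ) ≤ (1 - 2 * δ) ^ 2 * ((1 - δ) * (2 - δ)) :=
          mul_le_mul h5 h6 (by linarith) (by positivity)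
        have h8 : 2 - 11 * δ ≤ (1 - 4 * δ) * (2 - 3 * δ) := by nlinarith
        linarith
      calc (√2 - ε) ^ 2 * L ≤ ((1 - 2 * δ) ^ 2 * ((1 - δ) * (2 - δ))) * L :=
            mul_le_mul_of_nonneg_right (h2.trans h4) hLp.le
        _ = (1 - 2 * δ) ^ 2 * (1 - δ) * ((2 - δ) * L) := by ring
        _ ≤ (1 - 2 * δ) ^ 2 * (1 - δ) * (t * l) :=
            mul_le_mul_of_nonneg_left h3 (mul_nonneg (sq_nonneg _) (by linarith))
        _ = (1 - 2 * δ) ^ 2 * (t * ((1 - δ) * l)) := by ring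
    exact le_of_pow_le_pow_left₀ (by norm_num) (mul_nonneg (by linarith) (by positivity)) h1
  rw [div_le_iff₀ (lt_of_lt_of_le hslp hsl)]
  have e1 : (√2 - ε) * √((x : ℝ) / q) * Real.log x ^ (3 / 2 : ℝ) ≤ (√2 - ε) * √t * (L * √L) := by
    apply mul_le_mul (mul_le_mul_of_nonneg_left hst hse.le) h32 (by positivity) (by positivity)
  have e2 : (√2 - ε) * √t * (L * √L) = √t * L * ((√2 - ε) * √L) := by ring
  have e3 : √t * L * ((√2 - ε) * √L) ≤ √t * L * ((1 - 2 * δ) * (√t * √((1 - δ) * l))) :=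
    mul_le_mul_of_nonneg_left hcore (by positivity)
  have e4 : √t * L * ((1 - 2 * δ) * (√t * √((1 - δ) * l))) = t * ((1 - 2 * δ) * L) * √((1 - δ) * l) := by
    have h1 : √(t : ℝ) * √(t : ℝ) = t := Real.mul_self_sqrt (by positivity)
    calc √t * L * ((1 - 2 * δ) * (√t * √((1 - δ) * l))) = (√t * √t) * ((1 - 2 * δ) * L) * √((1 - δ) * l) := by ring
      _ = _ := by rw [h1]
  have e5 : t * ((1 - 2 * δ) * L) * √((1 - δ) * l) ≤ t * ((1 - 2 * δ) * L) * √(Real.log (Real.log x)) := by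
    apply mul_le_mul_of_nonneg_left hsl
    apply mul_nonneg (by positivity)
    exact mul_nonneg (by linarith) hLp.le
  linarith

/-! ### the theorem -/

theorem ex : S_SE → S_ID → S_EX := by
  intro hSE hID Ω _ μ _ A Q hQ hA ε hε
  obtain ⟨e, he⟩ : ∃ e : ℝ, e = min ε (1 / 2) := ⟨_, rfl⟩
  have he0 : 0 < e := by
    rw [he]
    exact lt_min hε (by norm_num)
  have he1 : e ≤ 1 / 2 := by
    rw [he]
    exact min_le_right _ _
  have he2 : e ≤ ε := by
    rw [he]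
    exact min_le_left _ _
  obtain ⟨δ, hδ⟩ : ∃ δ : ℝ, δ = e / 10 := ⟨_, rfl⟩
  have hδ0 : 0 < δ := by
    rw [hδ]
    positivity
  have h2 : Tendsto (fun j : ℕ => 2 ^ j) atTop (atTop : Filter ℕ) := tendsto_pow_atTop_atTop_of_one_lt (by norm_num)
  have hp := ex_prob hSE hID hδ0 (by linarith) hQ hA
  have hbc := bc (μ := μ) (B := fun j => {ω | ∀ i ∈ idx Q (kk δ Q (2 ^ j)), ω ∉ all A (blk Q (tt δ (2 ^ j)) i)})
    (g := fun j : ℕ => ((2 : ℝ) ^ j) ^ (-(δ / 8))) (summable_two_pow (by positivity)) (by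
      filter_upwards [h2.eventually hp] with j hj
      rw [Nat.cast_pow, Nat.cast_ofNat] at hj
      exact hj)
  filter_upwards [hbc] with ω hω
  have h3 : ∀ᶠ j : ℕ in atTop, ∃ x q a : ℕ, ((2 ^ j : ℕ) : ℝ) ^ (1 - e / 2) ≤ x ∧ x ≤ 2 ^ j ∧ Q ∣ q ∧ 1 ≤ q ∧ q ≤ x ∧
      a < q ∧ Nat.Coprime a q ∧
        (√2 - e) * √((x : ℝ) / q) * Real.log x ^ (3 / 2 : ℝ) / √(Real.log (Real.log x)) ≤
          psi (A ω) x q a - kap Q q * ((x : ℝ) / q) := by
    filter_upwards [hω, h2.eventually (det hID he0 he1 hδ hQ)] with j hj1 hj2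
    have hj3 : ¬ ∀ i ∈ idx Q (kk δ Q (2 ^ j)), ω ∉ all A (blk Q (tt δ (2 ^ j)) i) := hj1
    push Not at hj3
    obtain ⟨i, hi1, hi2⟩ := hj3
    exact hj2 (A ω) i hi1 hi2
  have hlog : Tendsto (fun X : ℕ => Nat.log 2 X) atTop atTop := by
    refine tendsto_atTop.2 fun N => ?_
    filter_upwards [eventually_ge_atTop (2 ^ N)] with X hX
    exact Nat.le_log_of_pow_le (by norm_num) hX
  filter_upwards [hlog.eventually h3, (h2.comp hlog).eventually (ev_power 2 0 (show 0 < e / 2 by positivity)),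
    eventually_ge_atTop 1] with X hX1 hX2 hX3
  obtain ⟨x, q, a, g1, g2, g3, g4, g5, g6, g7, g8⟩ := hX1
  have hle : 2 ^ Nat.log 2 X ≤ X := Nat.pow_log_le_self 2 (by omega)
  have hlt : X < 2 * 2 ^ Nat.log 2 X := by
    have := Nat.lt_pow_succ_log_self (b := 2) (by norm_num) X
    rw [pow_succ] at this
    omega
  refine ⟨x, q, a, ?_, g2.trans hle, g3, g4, g5, g6, g7, le_trans ?_ g8⟩
  · refine le_trans ?_ g1
    simp only [Function.comp, pow_zero, mul_one] at hX2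
    obtain ⟨Z, hZ⟩ : ∃ Z : ℝ, Z = ((2 ^ Nat.log 2 X : ℕ) : ℝ) := ⟨_, rfl⟩
    rw [← hZ] at hX2 ⊢
    have hZ1 : 1 ≤ Z := by
      rw [hZ]
      exact_mod_cast Nat.one_le_two_pow
    have hZp : 0 < Z := by linarith
    have hXZ : (X : ℝ) ≤ 2 * Z := by
      rw [hZ]
      exact_mod_cast hlt.le
    have hXr : (1 : ℝ) ≤ X := by exact_mod_cast hX3
    calc (X : ℝ) ^ (1 - ε) ≤ (X : ℝ) ^ (1 - e) := Real.rpow_le_rpow_of_exponent_le hXr (by linarith)
      _ ≤ (2 * Z) ^ (1 - e) := Real.rpow_le_rpow (by linarith) hXZ (by linarith)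
      _ = 2 ^ (1 - e) * Z ^ (1 - e) := Real.mul_rpow (by norm_num) hZp.le
      _ ≤ 2 * Z ^ (1 - e) := by
          apply mul_le_mul_of_nonneg_right _ (by positivity)
          have := Real.rpow_le_rpow_of_exponent_le (show (1 : ℝ) ≤ 2 by norm_num) (show 1 - e ≤ 1 by linarith)
          rwa [Real.rpow_one] at this
      _ ≤ Z ^ (e / 2) * Z ^ (1 - e) := mul_le_mul_of_nonneg_right hX2 (by positivity)
      _ = Z ^ (1 - e / 2) := by
          rw [← Real.rpow_add hZp]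
          congr 1
          ring
  · have hlx0 : 0 ≤ Real.log (x : ℝ) := Real.log_natCast_nonneg x
    apply div_le_div_of_nonneg_right _ (Real.sqrt_nonneg _)
    apply mul_le_mul_of_nonneg_right _ (by positivity)
    apply mul_le_mul_of_nonneg_right _ (Real.sqrt_nonneg _)
    linarith

end Pool.Agent.Q24.ML
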