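import Pool.Agent.Q112.ML.Stm

/-!
# Project ML: job SX (second moments for classes)
-/

set_option autoImplicit false

namespace Pool.Agent.Q24.ML

open Finset Filter MeasureTheory ProbabilityTheory Pool.Agent.Q112.LE Pool.Agent.Q112.ML
open Pool.Agent.Q120.GM hiding cls
open scoped Topology

lemma ind_nonneg (S : Set ℕ) (n : ℕ) : 0 ≤ ind S n := by
  unfold ind
  exact Set.indicator_nonneg (fun _ _ => zero_le_one) _

lemma ind_le_one (S : Set ℕ) (n : ℕ) : ind S n ≤ 1 := by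
  unfold ind
  exact Set.indicator_le' (fun _ _ => le_rfl) (fun _ _ => zero_le_one) _

lemma log_level_le {Q : ℕ} (n : ℕ) :
    Real.log n * level Q n ≤ if Nat.Coprime n Q then qq Q else 0 := by
  unfold level
  split_ifs with h
  · rcases (Real.log_natCast_nonneg n).eq_or_lt with h1 | h1
    · rw [← h1, zero_mul]
      unfold qq
      positivity
    · calc Real.log n * min 1 ((Q : ℝ) / Nat.totient Q / Real.log n) ≤
          Real.log n * ((Q : ℝ) / Nat.totient Q / Real.log n) :=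
            mul_le_mul_of_nonneg_left (min_le_right _ _) h1.le
        _ = qq Q := by
            unfold qq
            field_simp
  · rw [mul_zero]

lemma sum_log_level {Q : ℕ} (C : Finset ℕ) :
    ∑ n ∈ C, Real.log n * level Q n ≤ qq Q * ((C.filter (fun n => Nat.Coprime n Q)).card : ℝ) := by
  calc ∑ n ∈ C, Real.log n * level Q n ≤ ∑ n ∈ C, (if Nat.Coprime n Q then qq Q else 0) :=
        sum_le_sum fun n _ => log_level_le n
    _ = ∑ n ∈ C.filter (fun n => Nat.Coprime n Q), qq Q := by rw [sum_filter]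
    _ = _ := by
        rw [sum_const, nsmul_eq_mul]
        ring

lemma sm_sigma (S : Set ℕ) (σ : ℝ) (x q a : ℕ) :
    sm S (fun n => σ * Real.log n) (cls x q a) = σ * psi S x q a := by
  unfold psi sm
  rw [mul_sum]
  exact sum_congr rfl fun n _ => by ring

/-- The rates for large deviations of size `Δ`. -/
lemma rate_big {L Λ Δ : ℝ} (hRT : S_RT) (hL : 0 < L) (hΛ : 0 < Λ) (h1 : 40 * L ^ 2 ≤ Δ) (h2 : 40 * L * √Λ ≤ Δ) :
    20 * L ≤ Λ / L * rate (Δ / Λ) ∧ (Δ < Λ → 20 * L ≤ Λ / L * rate (-(Δ / Λ))) := by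
  obtain ⟨_, _, _, _, R5, _, _, _, R9, _, _⟩ := hRT
  have hΔ : 0 < Δ := lt_of_lt_of_le (by positivity) h1
  have h3 : 1600 * L ^ 2 * Λ ≤ Δ ^ 2 := by
    have h4 := pow_le_pow_left₀ (show 0 ≤ 40 * L * √Λ by positivity) h2 2
    rw [mul_pow, Real.sq_sqrt hΛ.le] at h4
    nlinarith only [h4]
  have h4 : 40 * L ^ 2 * Δ ≤ Δ ^ 2 := by
    have := mul_le_mul_of_nonneg_right h1 hΔ.le
    nlinarith only [this]
  constructor
  · have h5 := R9 (Δ / Λ) (by positivity)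
    have h6 : Λ / L * ((Δ / Λ) ^ 2 / (2 + Δ / Λ)) = Δ ^ 2 / (L * (2 * Λ + Δ)) := by
      have : 2 + Δ / Λ = (2 * Λ + Δ) / Λ := by field_simp
      rw [this]
      field_simp
    have h7 : 20 * L ≤ Δ ^ 2 / (L * (2 * Λ + Δ)) := by
      rw [le_div_iff₀ (by positivity)]
      nlinarith only [h3, h4, hΛ, hΔ, mul_pos (mul_pos hL hL) hΛ]
    calc 20 * L ≤ Δ ^ 2 / (L * (2 * Λ + Δ)) := h7
      _ = Λ / L * ((Δ / Λ) ^ 2 / (2 + Δ / Λ)) := h6.symm
      _ ≤ _ := mul_le_mul_of_nonneg_left h5 (by positivity)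
  · intro h5
    have h6 := (R5 (Δ / Λ) (by positivity) (by
      rw [div_le_one hΛ]
      exact h5.le)).1
    have h7 : Λ / L * ((Δ / Λ) ^ 2 / 2) = Δ ^ 2 / (2 * L * Λ) := by
      field_simp
    have h8 : 20 * L ≤ Δ ^ 2 / (2 * L * Λ) := by
      rw [le_div_iff₀ (by positivity)]
      nlinarith only [h3, mul_pos (mul_pos hL hL) hΛ]
    calc 20 * L ≤ Δ ^ 2 / (2 * L * Λ) := h8
      _ = Λ / L * ((Δ / Λ) ^ 2 / 2) := h7.symm
      _ ≤ _ := mul_le_mul_of_nonneg_left h6 (by positivity)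

/-- Concentration in a small window. -/
lemma conc (hCH : S_CH) (hRT : S_RT) {Ω : Type} [MeasurableSpace Ω] {μ : Measure Ω} [IsProbabilityMeasure μ]
    {A : Ω → Set ℕ} {Q : ℕ} (hQ : 1 ≤ Q) (hA : IsModel μ (level Q) A) {X : ℕ} (hX : 2 ≤ X) {C : Finset ℕ}
    (hC : ∀ n ∈ C, 1 ≤ n ∧ n ≤ X) {σ L Λ Δ : ℝ} (hσ : σ = 1 ∨ σ = -1) (hL : L = Real.log X)
    (hΛ : qq Q * (C.card : ℝ) ≤ Λ) (hΛ0 : 0 < Λ) (h1 : 40 * L ^ 2 ≤ Δ) (h2 : 40 * L * √Λ ≤ Δ) :
    ∃ c : ℝ, μ.real {ω | Δ < |sm (A ω) (fun n => σ * Real.log n) C - c|} ≤ 2 * Real.exp (-(20 * L)) := by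
  have hXr : (2 : ℝ) ≤ X := by exact_mod_cast hX
  have hLp : 0 < L := by
    rw [hL]
    exact Real.log_pos (by linarith)
  have hΔ : 0 < Δ := lt_of_lt_of_le (by positivity) h1
  have hqq : 0 ≤ qq Q := (qq_pos hQ).le
  have hΛ' : qq Q * ((C.filter (fun n => Nat.Coprime n Q)).card : ℝ) ≤ Λ := by
    refine le_trans (mul_le_mul_of_nonneg_left ?_ hqq) hΛ
    exact_mod_cast card_filter_le _ _
  obtain ⟨h3, h4⟩ := hCH Ω μ A Q hQ hA C X Λ Δ hX hC hΛ' hΛ0 hΔ
  rw [← hL] at h3 h4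
  obtain ⟨r1, r2⟩ := rate_big hRT hLp hΛ0 h1 h2
  refine ⟨∑ n ∈ C, σ * (Real.log n * level Q n), ?_⟩
  have hfil : C.filter (fun n => n ≤ X) = C := filter_true_of_mem fun n hn => (hC n hn).2
  have hσ1 : |σ| = 1 := by
    rcases hσ with h | h <;> rw [h] <;> norm_num
  have hsub : {ω | Δ < |sm (A ω) (fun n => σ * Real.log n) C - ∑ n ∈ C, σ * (Real.log n * level Q n)|} ⊆
      {ω | ∃ x : ℕ, Δ ≤ ∑ n ∈ C.filter (fun n => n ≤ x), Real.log n * (ind (A ω) n - level Q n)} ∪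
      {ω | Δ < ∑ n ∈ C, Real.log n * (level Q n - ind (A ω) n)} := by
    intro ω hω
    have h5 : Δ < |sm (A ω) (fun n => σ * Real.log n) C - ∑ n ∈ C, σ * (Real.log n * level Q n)| := hω
    have h6 : sm (A ω) (fun n => σ * Real.log n) C - ∑ n ∈ C, σ * (Real.log n * level Q n) =
        σ * ∑ n ∈ C, Real.log n * (ind (A ω) n - level Q n) := by
      unfold sm
      rw [← sum_sub_distrib, mul_sum]
      exact sum_congr rfl fun n _ => by ring
    rw [h6, abs_mul, hσ1, one_mul] at h5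
    rcases lt_abs.1 h5 with h7 | h7
    · left
      refine ⟨X, ?_⟩
      rw [hfil]
      exact h7.le
    · right
      show Δ < ∑ n ∈ C, Real.log n * (level Q n - ind (A ω) n)
      rw [← sum_neg_distrib] at h7
      refine lt_of_lt_of_eq h7 (sum_congr rfl fun n _ => by ring)
  have hP2 : μ.real {ω | Δ < ∑ n ∈ C, Real.log n * (level Q n - ind (A ω) n)} ≤ Real.exp (-(20 * L)) := by
    by_cases h5 : Δ < Λ
    · refine le_trans (measureReal_mono ?_ (measure_ne_top _ _)) ((h4 h5).trans ?_)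
      · intro ω hω
        refine ⟨X, ?_⟩
        rw [hfil]
        exact le_of_lt hω
      · apply Real.exp_le_exp.2
        linarith [r2 h5]
    · have h6 : {ω | Δ < ∑ n ∈ C, Real.log n * (level Q n - ind (A ω) n)} = ∅ := by
        apply Set.eq_empty_of_forall_notMem
        intro ω hω
        have h7 : Δ < ∑ n ∈ C, Real.log n * (level Q n - ind (A ω) n) := hω
        have h8 : ∑ n ∈ C, Real.log n * (level Q n - ind (A ω) n) ≤ ∑ n ∈ C, Real.log n * level Q n := by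
          apply sum_le_sum
          intro n _
          have h9 := mul_nonneg (Real.log_natCast_nonneg n) (ind_nonneg (A ω) n)
          linarith
        have h9 := sum_log_level (Q := Q) C
        push Not at h5
        linarith
      rw [h6, measureReal_empty]
      exact (Real.exp_pos _).le
  calc _ ≤ _ := measureReal_mono hsub (measure_ne_top _ _)
    _ ≤ _ := measureReal_union_le _ _
    _ ≤ Real.exp (-(20 * L)) + Real.exp (-(20 * L)) := by
        apply add_le_add _ hP2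
        refine h3.trans (Real.exp_le_exp.2 ?_)
        linarith
    _ = _ := by ring

/-- A window with at most one element. -/
lemma sm_one {S : Set ℕ} {X : ℕ} {C : Finset ℕ} (hC : ∀ n ∈ C, 1 ≤ n ∧ n ≤ X) (h1 : C.card ≤ 1) {σ : ℝ}
    (hσ : |σ| = 1) : |sm S (fun n => σ * Real.log n) C| ≤ Real.log X := by
  unfold sm
  have h2 : ∀ n ∈ C, |σ * Real.log n * ind S n| ≤ Real.log X := by
    intro n hn
    obtain ⟨h3, h4⟩ := hC n hn
    have h5 : (1 : ℝ) ≤ n := by exact_mod_cast h3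
    have h6 : Real.log n ≤ Real.log X := Real.log_le_log (by linarith) (by exact_mod_cast h4)
    have h7 : 0 ≤ Real.log (n : ℝ) := Real.log_natCast_nonneg n
    rw [abs_mul, abs_mul, hσ, one_mul, abs_of_nonneg h7, abs_of_nonneg (ind_nonneg S n)]
    calc Real.log n * ind S n ≤ Real.log n * 1 := mul_le_mul_of_nonneg_left (ind_le_one S n) h7
      _ ≤ _ := by rw [mul_one]; exact h6
  have h3 : 0 ≤ Real.log (X : ℝ) := Real.log_natCast_nonneg X
  calc |∑ n ∈ C, σ * Real.log n * ind S n| ≤ ∑ n ∈ C, |σ * Real.log n * ind S n| := abs_sum_le_sum_abs _ _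
    _ ≤ ∑ n ∈ C, Real.log X := sum_le_sum h2
    _ = C.card * Real.log X := by rw [sum_const, nsmul_eq_mul]
    _ ≤ 1 * Real.log X := mul_le_mul_of_nonneg_right (by exact_mod_cast h1) h3
    _ = _ := one_mul _

lemma tlog' : Tendsto (fun X : ℕ => Real.log (X : ℝ)) atTop atTop :=
  Real.tendsto_log_atTop.comp tendsto_natCast_atTop_atTop

/-- `#I π0` is large. -/
lemma card_pi {X L W Q k N ε : ℝ} (hX : 1 ≤ X) (hQ : 1 ≤ Q) (hk : 0 < k) (hkL : k ≤ 2 * L) (hε : 0 < ε)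
    (hW1 : 1 ≤ W) (hW : X ^ (2 * ε) ≤ W) (hN : W ^ 2 / (64 * k) ≤ N) (hp : 512 * Q ^ 2 * L ≤ X ^ (ε ^ 2)) :
    1 / (N * (Q * W) ^ (-(2 - ε))) ≤ X ^ (-(ε ^ 2)) / 4 := by
  have hXp : 0 < X := by linarith
  have hWp : 0 < W := by linarith
  have hQp : 0 < Q := by linarith
  have hN0 : 0 < N := lt_of_lt_of_le (by positivity) hN
  have h1 : (Q * W) ^ (-(2 - ε)) = (Q * W) ^ ε / (Q * W) ^ 2 := by
    rw [← Real.rpow_natCast, ← Real.rpow_sub (by positivity)]
    congr 1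
    push_cast
    ring
  obtain ⟨z, hz⟩ : ∃ z : ℝ, z = X ^ (ε ^ 2) := ⟨_, rfl⟩
  have hzp : 0 < z := by
    rw [hz]
    positivity
  have h2 : z ^ 2 ≤ (Q * W) ^ ε := by
    calc z ^ 2 = (X ^ (2 * ε)) ^ ε := by
          rw [hz, ← Real.rpow_natCast, ← Real.rpow_mul hXp.le, ← Real.rpow_mul hXp.le]
          congr 1
          push_cast
          ring
      _ ≤ W ^ ε := Real.rpow_le_rpow (by positivity) hW hε.le
      _ ≤ (Q * W) ^ ε := Real.rpow_le_rpow hWp.le (by nlinarith only [hQ, hWp]) hε.le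
  rw [h1, Real.rpow_neg hXp.le, ← hz]
  rw [← hz] at hp
  have h3 : W ^ 2 ≤ N * (64 * k) := by
    rw [div_le_iff₀ (by positivity)] at hN
    exact hN
  have h4 : W ^ 2 ≤ N * (128 * L) := by
    have := mul_le_mul_of_nonneg_left hkL hN0.le
    nlinarith only [this, h3]
  have h5 : 4 * (Q * W) ^ 2 ≤ N * z := by
    calc 4 * (Q * W) ^ 2 = 4 * Q ^ 2 * W ^ 2 := by ring
      _ ≤ 4 * Q ^ 2 * (N * (128 * L)) := mul_le_mul_of_nonneg_left h4 (by positivity)
      _ = N * (512 * Q ^ 2 * L) := by ring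
      _ ≤ N * z := mul_le_mul_of_nonneg_left hp hN0.le
  have h6 : 1 / (N * ((Q * W) ^ ε / (Q * W) ^ 2)) = (Q * W) ^ 2 / (N * (Q * W) ^ ε) := by
    field_simp
  have h7 : z⁻¹ / 4 = 1 / (4 * z) := by
    field_simp
  rw [h6, h7, div_le_div_iff₀ (by positivity) (by positivity), one_mul]
  calc (Q * W) ^ 2 * (4 * z) = 4 * (Q * W) ^ 2 * z := by ring
    _ ≤ N * z * z := mul_le_mul_of_nonneg_right h5 hzp.le
    _ = N * z ^ 2 := by ring
    _ ≤ N * (Q * W) ^ ε := mul_le_mul_of_nonneg_left h2 hN0.le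

/-- The power `π0 ^ (-2/N)`. -/
lemma pi_pow {X Y ε N : ℝ} (_hX : 1 ≤ X) (hY1 : 1 ≤ Y) (hY : Y ≤ X) (hε : 0 < ε) (hN : 0 < N) (hε1 : ε ≤ 1 / 2) :
    (Y ^ (-(2 - ε))) ^ (-(2 / N)) ≤ X ^ (4 / N) := by
  rw [← Real.rpow_mul (by linarith)]
  have h1 : -(2 - ε) * -(2 / N) ≤ 4 / N := by
    have : -(2 - ε) * -(2 / N) = (4 - 2 * ε) / N := by ring
    rw [this]
    apply div_le_div_of_nonneg_right _ hN.le
    linarith
  have h2 : 0 ≤ 4 / N := by positivity
  calc Y ^ (-(2 - ε) * -(2 / N)) ≤ Y ^ (4 / N) := Real.rpow_le_rpow_of_exponent_le hY1 h1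
    _ ≤ X ^ (4 / N) := Real.rpow_le_rpow (by linarith) hY h2

/-- The size of `Δ` in the second regime. -/
lemma delta_le {X W K L κ P g h : ℝ} (hXp : 1 ≤ X) (hW : 0 < W) (hK : 1 ≤ K) (hL : 1 ≤ L) (hP : 0 < P)
    (hg : g = √(X / W)) (hh : h = √W)
    (h1 : 320 * √K * L * P ≤ κ * g) (h2 : 1280 * √K * P ≤ κ * h) :
    2 * (40 * L ^ 2 + 40 * L * √(K * (64 * X / W ^ 2 + 1))) * P ≤ κ * L * g := by
  have hX0 : 0 < X := by linarith
  have hgp : 0 < g := by
    rw [hg]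
    exact Real.sqrt_pos.2 (by positivity)
  have hhp : 0 < h := by
    rw [hh]
    exact Real.sqrt_pos.2 hW
  have hg2 : g ^ 2 = X / W := by
    rw [hg]
    exact Real.sq_sqrt (by positivity)
  have hh2 : h ^ 2 = W := by
    rw [hh]
    exact Real.sq_sqrt hW.le
  have hk1 : 1 ≤ √K := by
    rw [Real.one_le_sqrt]
    exact hK
  have hk2 : √K ^ 2 = K := Real.sq_sqrt (by linarith)
  have hX : X = g ^ 2 * h ^ 2 := by
    rw [hg2, hh2]
    field_simp
  have h3 : √(K * (64 * X / W ^ 2 + 1)) ≤ √K * (8 * (g / h) + 1) := by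
    rw [Real.sqrt_le_left (by positivity), mul_pow, hk2]
    apply mul_le_mul_of_nonneg_left _ (by linarith)
    have h4 : 64 * X / W ^ 2 = 64 * (g / h) ^ 2 := by
      rw [hX, ← hh2]
      field_simp
    rw [h4]
    have h5 : 0 < g / h := by positivity
    nlinarith only [h5]
  have h4 : 40 * L ^ 2 + 40 * L * √(K * (64 * X / W ^ 2 + 1)) ≤ 80 * √K * L ^ 2 + 320 * √K * L * (g / h) := by
    have h5 : 40 * L * √(K * (64 * X / W ^ 2 + 1)) ≤ 40 * L * (√K * (8 * (g / h) + 1)) :=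
      mul_le_mul_of_nonneg_left h3 (by positivity)
    have h6 : L ^ 2 ≤ √K * L ^ 2 := le_mul_of_one_le_left (by positivity) hk1
    have h7 : √K * L ≤ √K * L ^ 2 := mul_le_mul_of_nonneg_left (by nlinarith only [hL]) (by positivity)
    nlinarith only [h5, h6, h7]
  have h5 : 2 * (40 * L ^ 2 + 40 * L * √(K * (64 * X / W ^ 2 + 1))) * P ≤
      2 * (80 * √K * L ^ 2 + 320 * √K * L * (g / h)) * P := by
    apply mul_le_mul_of_nonneg_right _ hP.le
    linarith
  refine h5.trans ?_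
  have h6 : L / 2 * (320 * √K * L * P) ≤ L / 2 * (κ * g) := mul_le_mul_of_nonneg_left h1 (by positivity)
  have h7 : L * (g / h) / 2 * (1280 * √K * P) ≤ L * (g / h) / 2 * (κ * h) :=
    mul_le_mul_of_nonneg_left h2 (by positivity)
  have h8 : L * (g / h) / 2 * (κ * h) = L / 2 * (κ * g) := by
    field_simp
  rw [h8] at h7
  nlinarith only [h6, h7]

/-- The last step in the second regime. -/
lemma brk_le {X L P Y τ N ε c : ℝ} (hX : 104 ≤ X) (hL : L = Real.log X) (hL1 : 1 ≤ L) (hε0 : 0 < ε)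
    (hε1 : ε ≤ 1 / 2) (hc : c ≤ ε / 16) (hP : P = X ^ (ε / 8)) (hp : 64 * L ≤ X ^ (ε / 16)) (hP2 : 2 ≤ P)
    (hN : P / 2 ≤ N) (hY1 : 1 ≤ Y) (hY : Y ≤ X) (hτ : τ = 2 * Real.exp (-(20 * L))) :
    (Y ^ (-(2 - ε))) ^ (-(2 / N)) / (1 - τ) ^ 2 + τ / (Y ^ (-(2 - ε))) ^ 2 - 1 ≤ X ^ (-c) / 2 := by
  have hXp : 0 < X := by linarith
  have hPp : 0 < P := by linarith
  have hNp : 0 < N := by linarith
  have hτ0 : 0 < τ := by
    rw [hτ]
    positivity
  have hq : X ^ (ε / 16) * X ^ (ε / 16) = P := by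
    rw [hP, ← Real.rpow_add hXp]
    congr 1
    ring
  obtain ⟨z, hz⟩ : ∃ z : ℝ, z = X ^ (ε / 16) := ⟨_, rfl⟩
  rw [← hz] at hq hp
  have hz1 : 1 ≤ z := by linarith
  obtain ⟨θ, hθ⟩ : ∃ θ : ℝ, θ = 16 * L / P := ⟨_, rfl⟩
  have hθ0 : 0 < θ := by
    rw [hθ]
    positivity
  have hθ1 : θ ≤ z⁻¹ / 4 := by
    have h7 : z⁻¹ / 4 = 1 / (4 * z) := by
      field_simp
    rw [hθ, h7, div_le_div_iff₀ hPp (by positivity), ← hq]
    nlinarith only [hp, hz1]
  have hzi : z⁻¹ ≤ 1 := inv_le_one_of_one_le₀ hz1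
  have hθ2 : θ ≤ 1 / 4 := by linarith
  -- the power
  have e1 : (Y ^ (-(2 - ε))) ^ (-(2 / N)) ≤ 1 + θ := by
    refine (pi_pow (by linarith) hY1 hY hε0 hNp hε1).trans ?_
    rw [Real.rpow_def_of_pos hXp, ← hL]
    obtain ⟨x, hx⟩ : ∃ x : ℝ, x = θ / 2 := ⟨_, rfl⟩
    have h1 : L * (4 / N) ≤ x := by
      rw [hx, hθ]
      have h2 : L * (4 / N) = 4 * L / N := by ring
      have h3 : 16 * L / P / 2 = 4 * L / (P / 2) := by
        field_simp
        ring
      rw [h2, h3]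
      exact div_le_div_of_nonneg_left (by positivity) (by positivity) hN
    have h2 := Real.exp_bound_div_one_sub_of_interval (x := x) (by linarith) (by linarith)
    have h3 : 1 / (1 - x) ≤ 1 + 2 * x := by
      rw [div_le_iff₀ (by linarith)]
      nlinarith only [hx, hθ0, hθ2]
    calc Real.exp (L * (4 / N)) ≤ Real.exp x := Real.exp_le_exp.2 h1
      _ ≤ 1 + 2 * x := h2.trans h3
      _ = 1 + θ := by
          rw [hx]
          ring
  -- the tail
  have hX1 : 1 ≤ X := by linarith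
  have e2 : τ / (Y ^ (-(2 - ε))) ^ 2 ≤ τ * X ^ 4 := by
    rw [div_le_iff₀ (by positivity)]
    have h1 : 1 ≤ X ^ 2 * Y ^ (-(2 - ε)) := by
      have h2 : Y ^ (2 - ε) ≤ X ^ 2 := by
        calc Y ^ (2 - ε) ≤ X ^ (2 - ε) := Real.rpow_le_rpow (by linarith) hY (by linarith)
          _ ≤ X ^ (2 : ℝ) := Real.rpow_le_rpow_of_exponent_le hX1 (by linarith)
          _ = X ^ 2 := by norm_num
      rw [Real.rpow_neg (by linarith), ← div_eq_mul_inv, le_div_iff₀ (by positivity), one_mul]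
      exact h2
    have h2 : 1 ≤ (X ^ 2 * Y ^ (-(2 - ε))) ^ 2 := one_le_pow₀ h1
    calc τ = τ * 1 := (mul_one _).symm
      _ ≤ τ * (X ^ 2 * Y ^ (-(2 - ε))) ^ 2 := mul_le_mul_of_nonneg_left h2 hτ0.le
      _ = τ * X ^ 4 * (Y ^ (-(2 - ε))) ^ 2 := by ring
  have e3 : τ * X ^ 4 = 2 / X ^ 16 := by
    have h1 : Real.exp (-(20 * L)) = 1 / X ^ 20 := by
      rw [Real.exp_neg, hL, one_div]
      congr 1
      rw [show 20 * Real.log X = ((20 : ℕ) : ℝ) * Real.log X by norm_num, Real.exp_nat_mul, Real.exp_log hXp]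
    rw [hτ, h1]
    field_simp
  have hX4 : 1 ≤ X ^ 4 := one_le_pow₀ hX1
  have e4 : 13 * (τ * X ^ 4) ≤ X⁻¹ / 4 := by
    rw [e3]
    have h1 : 13 * (2 / X ^ 16) = 26 / X ^ 16 := by ring
    have h2 : X⁻¹ / 4 = 1 / (4 * X) := by field_simp
    rw [h1, h2, div_le_div_iff₀ (by positivity) (by positivity)]
    have h3 : 1 ≤ X ^ 14 := one_le_pow₀ hX1
    have h4 : X ^ 16 = X ^ 14 * (X * X) := by ring
    have h5 : X * X ≤ X ^ 14 * (X * X) := le_mul_of_one_le_left (by positivity) h3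
    rw [h4]
    nlinarith only [h5, hX]
  have hτX : τ ≤ τ * X ^ 4 := le_mul_of_one_le_right hτ0.le hX4
  have hXi : X⁻¹ ≤ 1 / 104 := by
    rw [one_div]
    exact inv_anti₀ (by norm_num) hX
  have hτ4 : τ ≤ 1 / 4 := by linarith
  have e5 : (Y ^ (-(2 - ε))) ^ (-(2 / N)) / (1 - τ) ^ 2 ≤ 1 + θ + 12 * τ := by
    have h1 : 0 < (1 - τ) ^ 2 := by
      have : 0 < 1 - τ := by linarith
      positivity
    rw [div_le_iff₀ h1]
    refine e1.trans ?_
    have h2 : 1 ≤ (1 + 6 * τ) * (1 - τ) ^ 2 := by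
      have h3 : 0 ≤ τ * (4 - 11 * τ) := mul_nonneg hτ0.le (by linarith)
      have h4 : 0 ≤ τ ^ 3 := by positivity
      nlinarith only [h3, h4]
    calc 1 + θ = (1 + θ) * 1 := (mul_one _).symm
      _ ≤ (1 + θ) * ((1 + 6 * τ) * (1 - τ) ^ 2) := mul_le_mul_of_nonneg_left h2 (by linarith)
      _ = ((1 + θ) * (1 + 6 * τ)) * (1 - τ) ^ 2 := by ring
      _ ≤ (1 + θ + 12 * τ) * (1 - τ) ^ 2 := by
          apply mul_le_mul_of_nonneg_right _ h1.le
          nlinarith only [hθ0, hθ2, hτ0, mul_nonneg hτ0.le (sub_nonneg.2 hθ2)]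
  have e6 : z⁻¹ ≤ X ^ (-c) := by
    rw [hz, ← Real.rpow_neg hXp.le]
    exact Real.rpow_le_rpow_of_exponent_le hX1 (by linarith)
  have e7 : X⁻¹ ≤ X ^ (-c) := by
    rw [← Real.rpow_neg_one]
    exact Real.rpow_le_rpow_of_exponent_le hX1 (by linarith)
  linarith

/-- The numerical hypotheses on `X`. -/
structure Big (Q k0 : ℕ) (ε κ c : ℝ) (X L : ℝ) : Prop where
  hX : 104 ≤ X
  hL : 1 ≤ L
  b1 : 2 ^ (k0 + 1) ≤ X ^ (2 * ε)
  b2 : 512 * (Q : ℝ) ^ 2 * L ≤ X ^ (ε ^ 2)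
  b3 : 82 ≤ L ^ (ε / 4)
  b4 : 8000 ≤ X ^ (1 / 10 : ℝ)
  b5 : 320 * √(qq Q) / κ * L ≤ X ^ (1 / 16 : ℝ)
  b6 : 1280 * √(qq Q) / κ ≤ X ^ (ε / 2)
  b7 : 2 ≤ X ^ (ε / 8)
  b8 : 64 * L ≤ X ^ (ε / 16)

lemma big (Q k0 : ℕ) {ε : ℝ} (κ c : ℝ) (hε : 0 < ε) : ∀ᶠ X : ℕ in atTop, Big Q k0 ε κ c X (Real.log X) := by
  filter_upwards [eventually_ge_atTop 104, tlog'.eventually_ge_atTop 1,
    ev_power ((2 : ℝ) ^ (k0 + 1)) 0 (show 0 < 2 * ε by positivity),
    ev_power (512 * (Q : ℝ) ^ 2) 1 (show 0 < ε ^ 2 by positivity),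
    ((tendsto_rpow_atTop (show 0 < ε / 4 by positivity)).comp tlog').eventually_ge_atTop 82,
    ev_power 8000 0 (show (0 : ℝ) < 1 / 10 by norm_num),
    ev_power (320 * √(qq Q) / κ) 1 (show (0 : ℝ) < 1 / 16 by norm_num),
    ev_power (1280 * √(qq Q) / κ) 0 (show (0 : ℝ) < ε / 2 by positivity),
    ev_power 2 0 (show (0 : ℝ) < ε / 8 by positivity),
    ev_power 64 1 (show (0 : ℝ) < ε / 16 by positivity)] with X h1 h2 h3 h4 h5 h6 h7 h8 h9 h10
  rw [pow_zero, mul_one] at h3 h6 h8 h9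
  rw [pow_one] at h4 h7 h10
  exact ⟨by exact_mod_cast h1, h2, h3, h4, h5, h6, h7, h8, h9, h10⟩

/-- The set of the indices and the elements of the windows. -/
lemma mem_win {Q X n : ℕ} {i : ℕ × ℕ} (hn : n ∈ win Q X i) : 1 ≤ n ∧ n ≤ X := by
  unfold win cls at hn
  rw [mem_filter, mem_Icc] at hn
  exact hn.1

lemma cap_le {X W Q l l' : ℝ} (hQ : 1 ≤ Q) (hX : 0 < X) (hW : 0 < W) (h1 : W / 8 < l) (h2 : W / 8 < l') :
    X / (Q * l * l') ≤ 64 * X / W ^ 2 := by
  have h3 : W / 8 * (W / 8) ≤ l * l' := mul_le_mul h1.le h2.le (by positivity) (by linarith)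
  have h4 : l * l' ≤ Q * (l * l') := le_mul_of_one_le_left (by linarith [mul_pos hW hW]) hQ
  rw [div_le_div_iff₀ (by
    have : 0 < W / 8 * (W / 8) := by positivity
    rw [mul_assoc]
    linarith) (by positivity)]
  have h5 : X * (W / 8 * (W / 8)) ≤ X * (Q * (l * l')) := mul_le_mul_of_nonneg_left (h3.trans h4) hX.le
  nlinarith only [h5]

theorem sx : S_SM → S_CH → S_RT → S_ID → S_SX := by
  intro hSM hCH hRT hID Q hQ ε κ hε0 hε1 hκ
  obtain ⟨c, hc⟩ : ∃ c : ℝ, c = ε ^ 2 / 16 := ⟨_, rfl⟩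
  have hc0 : 0 < c := by
    rw [hc]
    positivity
  refine ⟨c, hc0, ?_⟩
  obtain ⟨k0, hk0⟩ := eventually_atTop.1 (hID Q hQ)
  filter_upwards [big Q k0 κ c hε0] with X hB
  intro k hk1 hk2 Ω _ μ _ A hA σ T H hσ hH1 hH2 hP
  obtain ⟨L, hL⟩ : ∃ L : ℝ, L = Real.log X := ⟨_, rfl⟩
  rw [← hL] at hB hk2 hH1 hH2
  obtain ⟨hX, hL1, b1, b2, b3, b4, b5, b6, b7, b8⟩ := hB
  have hXp : (0 : ℝ) < X := by linarith
  have hX1 : (1 : ℝ) ≤ X := by linarith
  have hXn : 2 ≤ X := by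
    have : (2 : ℝ) ≤ X := by linarith
    exact_mod_cast this
  have hQr : (1 : ℝ) ≤ Q := by exact_mod_cast hQ
  have hkk : k0 + 1 ≤ k := by
    by_contra hcon
    have h1 : k ≤ k0 := by omega
    have h2 : (2 : ℝ) ^ k < 2 ^ (k0 + 1) := pow_lt_pow_right₀ (by norm_num) (by omega)
    linarith
  obtain ⟨hi, hcard, hdep⟩ := hk0 k (by omega)
  obtain ⟨⟨Dep, hD1, hD2, hD3⟩, hint⟩ := hdep X (by omega)
  obtain ⟨W, hW⟩ : ∃ W : ℝ, W = 2 ^ k := ⟨_, rfl⟩
  have hW4 : (4 : ℝ) ^ k = W ^ 2 := by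
    rw [hW, ← pow_mul, mul_comm, pow_mul]
    norm_num
  rw [hW4] at hcard hD3
  rw [← hW] at hk1 hk2 hH2 hP
  have hW1 : 1 ≤ W := by
    rw [hW]
    exact one_le_pow₀ (by norm_num)
  have hWp : 0 < W := by linarith
  have hkp : (1 : ℝ) ≤ k := by exact_mod_cast (by omega : 1 ≤ k)
  have hLe : 1 ≤ L ^ (1 + ε) := Real.one_le_rpow hL1 (by linarith)
  have hQW1 : 1 ≤ Q * W := by nlinarith only [hQr, hW1]
  have hQW : Q * W ≤ X := by
    have : Q * W * 1 ≤ Q * W * L ^ (1 + ε) := mul_le_mul_of_nonneg_left hLe (by linarith)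
    linarith
  have hWX : W ≤ X := by
    have : 1 * W ≤ Q * W := mul_le_mul_of_nonneg_right hQr hWp.le
    linarith
  have hkL : (k : ℝ) ≤ 2 * L := by
    have h1 := Real.log_le_log hWp hWX
    rw [hW, Real.log_pow, ← hL] at h1
    have h2 : (1 : ℝ) / 2 ≤ Real.log 2 := by
      have := Real.log_two_gt_d9
      linarith
    have h3 : (k : ℝ) * (1 / 2) ≤ k * Real.log 2 := mul_le_mul_of_nonneg_left h2 (by linarith)
    linarith
  obtain ⟨I, hI⟩ : ∃ I : ℝ, I = ((idx Q k).card : ℝ) := ⟨_, rfl⟩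
  rw [← hI] at hcard hD2 hD3
  have hI0 : 0 < I := lt_of_lt_of_le (by positivity) hcard
  have hne : (idx Q k).Nonempty := by
    rw [← card_pos]
    rw [hI] at hI0
    exact_mod_cast hI0
  obtain ⟨π0, hπ⟩ : ∃ π0 : ℝ, π0 = ((Q : ℝ) * W) ^ (-(2 - ε)) := ⟨_, rfl⟩
  have hcp : 1 / (I * π0) ≤ (X : ℝ) ^ (-(ε ^ 2)) / 4 := by
    rw [hπ]
    exact card_pi hX1 hQr (by linarith) hkL hε0 hW1 hk1 hcard b2
  have hcp' : 1 / (I * π0) ≤ (X : ℝ) ^ (-c) / 4 := by
    refine hcp.trans ?_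
    have : (X : ℝ) ^ (-(ε ^ 2)) ≤ (X : ℝ) ^ (-c) :=
      Real.rpow_le_rpow_of_exponent_le hX1 (by
        rw [hc]
        nlinarith only [sq_nonneg ε])
    linarith
  have hπ0 : 0 < π0 := by
    rw [hπ]
    positivity
  have hπ1 : π0 ≤ 1 := by
    rw [hπ]
    exact Real.rpow_le_one_of_one_le_of_nonpos hQW1 (by linarith)
  have hσ1 : |σ| = 1 := by
    rcases hσ with h | h <;> rw [h] <;> norm_num
  have hPw : ∀ i ∈ idx Q k, π0 ≤ μ.real {ω | T i + H i ≤ sm (A ω) (fun n => σ * Real.log n) (win Q X i)} := by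
    intro i hii
    have h1 := hP i hii
    rw [← hπ] at h1
    refine h1.trans (le_of_eq ?_)
    congr 1
    ext ω
    show T i + H i ≤ σ * psi (A ω) X (Q * i.1) (1 + Q * i.2) ↔
      T i + H i ≤ sm (A ω) (fun n => σ * Real.log n) (win Q X i)
    unfold win
    rw [sm_sigma]
  have hset : {ω | ∀ i ∈ idx Q k, σ * psi (A ω) X (Q * i.1) (1 + Q * i.2) < T i} =
      {ω | ∀ i ∈ idx Q k, sm (A ω) (fun n => σ * Real.log n) (win Q X i) < T i} := by
    ext ω
    show (∀ i ∈ idx Q k, σ * psi (A ω) X (Q * i.1) (1 + Q * i.2) < T i) ↔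
      (∀ i ∈ idx Q k, sm (A ω) (fun n => σ * Real.log n) (win Q X i) < T i)
    unfold win
    simp only [sm_sigma]
  rw [hset]
  have hcap : ∀ i ∈ idx Q k, ∀ j ∈ idx Q k, i ≠ j → ((win Q X i ∩ win Q X j).card : ℝ) ≤ 64 * X / W ^ 2 + 1 := by
    intro i hii j hjj hij
    have h1 := hint i hii j hjj hij
    have h2 := (hi i hii).2.2.2.1
    have h3 := (hi j hjj).2.2.2.1
    rw [← hW] at h2 h3
    have := cap_le hQr hXp hWp h2 h3
    linarith
  by_cases hreg : W < (X : ℝ) ^ (3 / 4 : ℝ)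
  · -- the second regime
    obtain ⟨K, hK⟩ : ∃ K : ℝ, K = qq Q := ⟨_, rfl⟩
    rw [← hK] at b5 b6
    have hK1 : 1 ≤ K := by
      rw [hK]
      unfold qq
      have h1 : (0 : ℝ) < Nat.totient Q := by exact_mod_cast Nat.totient_pos.2 hQ
      rw [le_div_iff₀ h1, one_mul]
      exact_mod_cast Nat.totient_le Q
    obtain ⟨Λ, hΛ⟩ : ∃ Λ : ℝ, Λ = K * (64 * X / W ^ 2 + 1) := ⟨_, rfl⟩
    have hΛ0 : 0 < Λ := by
      rw [hΛ]
      positivity
    obtain ⟨Δ, hΔ⟩ : ∃ Δ : ℝ, Δ = 40 * L ^ 2 + 40 * L * √Λ := ⟨_, rfl⟩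
    have hΔ0 : 0 ≤ Δ := by
      rw [hΔ]
      positivity
    obtain ⟨τ, hτ⟩ : ∃ τ : ℝ, τ = 2 * Real.exp (-(20 * L)) := ⟨_, rfl⟩
    obtain ⟨P, hPd⟩ : ∃ P : ℝ, P = (X : ℝ) ^ (ε / 8) := ⟨_, rfl⟩
    rw [← hPd] at b7
    have hPp : 0 < P := by linarith
    obtain ⟨N, hN⟩ : ∃ N : ℕ, N = ⌊P⌋₊ := ⟨_, rfl⟩
    have hN1 : (N : ℝ) ≤ P := by
      rw [hN]
      exact Nat.floor_le hPp.le
    have hN2 : P / 2 ≤ N := by
      have : P < N + 1 := by
        rw [hN]
        exact Nat.lt_floor_add_one P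
      linarith
    have hN3 : 1 ≤ N := by
      have : (0 : ℝ) < N := by linarith
      exact_mod_cast this
    have hτe : Real.exp (-(20 * L)) ≤ 1 / 20 := by
      rw [Real.exp_neg, one_div]
      apply inv_anti₀ (by norm_num)
      have := Real.add_one_le_exp (20 * L)
      linarith
    have hτ0 : 0 ≤ τ := by
      rw [hτ]
      positivity
    have hτ1 : τ ≤ 1 / 2 := by linarith
    -- the step
    have hstep : 2 * Δ * N ≤ κ * L * √((X : ℝ) / W) := by
      have h0 : 2 * Δ * N ≤ 2 * Δ * P := mul_le_mul_of_nonneg_left hN1 (by positivity)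
      refine h0.trans ?_
      rw [hΔ, hΛ]
      apply delta_le (h := √W) hX1 hWp hK1 hL1 hPp rfl rfl
      · have h1 : P ≤ (X : ℝ) ^ (1 / 16 : ℝ) := by
          rw [hPd]
          exact Real.rpow_le_rpow_of_exponent_le hX1 (by linarith)
        have h2 : 320 * √K * L ≤ κ * (X : ℝ) ^ (1 / 16 : ℝ) := by
          have h3 := mul_le_mul_of_nonneg_left b5 hκ.le
          have h4 : κ * (320 * √K / κ * L) = 320 * √K * L := by
            field_simp
          linarith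
        have h3 : (X : ℝ) ^ (1 / 16 : ℝ) * (X : ℝ) ^ (1 / 16 : ℝ) ≤ √((X : ℝ) / W) := by
          apply Real.le_sqrt_of_sq_le
          rw [le_div_iff₀ hWp]
          have h4 : ((X : ℝ) ^ (1 / 16 : ℝ) * (X : ℝ) ^ (1 / 16 : ℝ)) ^ 2 = (X : ℝ) ^ (1 / 4 : ℝ) := by
            rw [← Real.rpow_add hXp, ← Real.rpow_natCast, ← Real.rpow_mul hXp.le]
            congr 1
            norm_num
          rw [h4]
          calc (X : ℝ) ^ (1 / 4 : ℝ) * W ≤ (X : ℝ) ^ (1 / 4 : ℝ) * (X : ℝ) ^ (3 / 4 : ℝ) :=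
                mul_le_mul_of_nonneg_left hreg.le (by positivity)
            _ = X := by
                rw [← Real.rpow_add hXp]
                norm_num
        calc 320 * √K * L * P ≤ κ * (X : ℝ) ^ (1 / 16 : ℝ) * (X : ℝ) ^ (1 / 16 : ℝ) :=
              mul_le_mul h2 h1 hPp.le (by positivity)
          _ = κ * ((X : ℝ) ^ (1 / 16 : ℝ) * (X : ℝ) ^ (1 / 16 : ℝ)) := by ring
          _ ≤ _ := mul_le_mul_of_nonneg_left h3 hκ.le
      · have h1 : 1280 * √K ≤ κ * (X : ℝ) ^ (ε / 2) := by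
          have h3 := mul_le_mul_of_nonneg_left b6 hκ.le
          have h4 : κ * (1280 * √K / κ) = 1280 * √K := by
            field_simp
          linarith
        have h2 : (X : ℝ) ^ (ε / 2) * P ≤ √W := by
          apply Real.le_sqrt_of_sq_le
          refine le_trans ?_ hk1
          rw [hPd, ← Real.rpow_add hXp, ← Real.rpow_natCast, ← Real.rpow_mul hXp.le]
          apply Real.rpow_le_rpow_of_exponent_le hX1
          push_cast
          linarith
        calc 1280 * √K * P ≤ κ * (X : ℝ) ^ (ε / 2) * P := mul_le_mul_of_nonneg_right h1 hPp.le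
          _ = κ * ((X : ℝ) ^ (ε / 2) * P) := by ring
          _ ≤ _ := mul_le_mul_of_nonneg_left h2 hκ.le
    have key := hSM Ω μ (level Q) A hA (ℕ × ℕ) (idx Q k) (win Q X) (fun n => σ * Real.log n) T H Dep Δ τ π0 N hne
      hΔ0 hτ0 hτ1 hπ0 hπ1 hN3 (fun i hii => hstep.trans (hH2 hreg i hii)) hPw hD1 (by
        intro i hii j hjj hij _
        rw [hτ]
        apply conc hCH hRT hQ hA hXn (C := win Q X i ∩ win Q X j) (Λ := Λ) (Δ := Δ) ?_ hσ hL
        · rw [← hK, hΛ]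
          exact mul_le_mul_of_nonneg_left (hcap i hii j hjj hij) (by linarith)
        · exact hΛ0
        · rw [hΔ]
          have : 0 ≤ 40 * L * √Λ := by positivity
          linarith
        · rw [hΔ]
          have : 0 ≤ 40 * L ^ 2 := by positivity
          linarith
        · intro n hn
          exact mem_win (mem_of_mem_inter_left hn))
    refine key.trans ?_
    rw [← hI]
    have hbr := brk_le (N := (N : ℝ)) (c := c) hX hL hL1 hε0 hε1 (by
      rw [hc]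
      nlinarith only [hε0, hε1]) hPd b8 b7 hN2 hQW1 hQW hτ
    rw [← hπ] at hbr
    have hDI : (Dep.card : ℝ) / I ^ 2 ≤ 1 := by
      rw [div_le_one (by positivity)]
      exact hD2
    have hDI0 : 0 ≤ (Dep.card : ℝ) / I ^ 2 := by positivity
    have h1 : (Dep.card : ℝ) / I ^ 2 * (π0 ^ (-(2 / (N : ℝ))) / (1 - τ) ^ 2 + τ / π0 ^ 2 - 1) ≤
        1 * ((X : ℝ) ^ (-c) / 2) :=
      (mul_le_mul_of_nonneg_left hbr hDI0).trans (mul_le_mul_of_nonneg_right hDI (by positivity))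
    have h2 : 0 ≤ (X : ℝ) ^ (-c) := by positivity
    linarith
  · -- the first regime
    push Not at hreg
    obtain ⟨N, hN⟩ : ∃ N : ℕ, N = ⌊L ^ (ε / 4) / 2⌋₊ := ⟨_, rfl⟩
    have hN1 : (N : ℝ) ≤ L ^ (ε / 4) / 2 := by
      rw [hN]
      exact Nat.floor_le (by positivity)
    have hN2 : (40 : ℝ) ≤ N := by
      have : L ^ (ε / 4) / 2 < N + 1 := by
        rw [hN]
        exact Nat.lt_floor_add_one _
      linarith
    have hN3 : 1 ≤ N := by
      have : (1 : ℝ) ≤ N := by linarith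
      exact_mod_cast this
    have hstep : 2 * L * N ≤ L ^ (1 + ε / 4) := by
      rw [Real.rpow_add (by linarith), Real.rpow_one]
      have := mul_le_mul_of_nonneg_left hN1 (show 0 ≤ 2 * L by positivity)
      linarith
    obtain ⟨s, hs⟩ : ∃ s : ℝ, s = (X : ℝ) ^ (1 / 10 : ℝ) := ⟨_, rfl⟩
    rw [← hs] at b4
    have hsp : 0 < s := by linarith
    have hs10 : s ^ 10 = X := by
      rw [hs, ← Real.rpow_natCast, ← Real.rpow_mul hXp.le]
      norm_num
    have hW15 : s ^ 15 ≤ W ^ 2 := by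
      have h1 : s ^ 15 = ((X : ℝ) ^ (3 / 4 : ℝ)) ^ 2 := by
        rw [hs, ← Real.rpow_natCast, ← Real.rpow_mul hXp.le, ← Real.rpow_natCast, ← Real.rpow_mul hXp.le]
        norm_num
      rw [h1]
      exact pow_le_pow_left₀ (by positivity) hreg 2
    have h64 : 64 * (X : ℝ) / W ^ 2 < 1 := by
      rw [div_lt_one (by positivity)]
      have h1 : 64 < s ^ 5 := by
        calc (64 : ℝ) < 8000 ^ 5 := by norm_num
          _ ≤ s ^ 5 := pow_le_pow_left₀ (by norm_num) b4 5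
      calc 64 * (X : ℝ) < s ^ 5 * X := mul_lt_mul_of_pos_right h1 hXp
        _ = s ^ 15 := by
            rw [← hs10]
            ring
        _ ≤ W ^ 2 := hW15
    have key := hSM Ω μ (level Q) A hA (ℕ × ℕ) (idx Q k) (win Q X) (fun n => σ * Real.log n) T H Dep L 0 π0 N hne
      (by linarith) le_rfl (by norm_num) hπ0 hπ1 hN3 (fun i hii => hstep.trans (hH1 i hii)) hPw hD1 (by
        intro i hii j hjj hij _
        refine ⟨0, ?_⟩
        have h1 : {ω | L < |sm (A ω) (fun n => σ * Real.log n) (win Q X i ∩ win Q X j) - 0|} = ∅ := by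
          apply Set.eq_empty_of_forall_notMem
          intro ω hω
          have h2 : L < |sm (A ω) (fun n => σ * Real.log n) (win Q X i ∩ win Q X j) - 0| := hω
          have h3 : (win Q X i ∩ win Q X j).card ≤ 1 := by
            have h4 := hcap i hii j hjj hij
            have h5 : ((win Q X i ∩ win Q X j).card : ℝ) < 2 := by linarith
            have h6 : (win Q X i ∩ win Q X j).card < 2 := by exact_mod_cast h5
            omega
          have h4 := sm_one (S := A ω) (X := X) (C := win Q X i ∩ win Q X j)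
            (fun n hn => mem_win (mem_of_mem_inter_left hn)) h3 hσ1
          rw [sub_zero] at h2
          rw [← hL] at h4
          exact absurd h2 (not_lt.2 h4)
        rw [h1, measureReal_empty])
    refine key.trans ?_
    rw [← hI]
    have e1 : π0 ^ (-(2 / (N : ℝ))) ≤ s := by
      rw [hπ]
      refine (pi_pow hX1 hQW1 hQW hε0 (by linarith) hε1).trans ?_
      rw [hs]
      apply Real.rpow_le_rpow_of_exponent_le hX1
      rw [div_le_div_iff₀ (by linarith) (by norm_num)]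
      linarith
    have e2 : (Dep.card : ℝ) / I ^ 2 ≤ 4000 / s ^ 5 := by
      have h1 : (Dep.card : ℝ) / I ^ 2 ≤ 2000 * (X / Q + 1) / W ^ 2 := by
        rw [div_le_iff₀ (by positivity)]
        exact hD3
      refine h1.trans ?_
      have h2 : (X : ℝ) / Q ≤ X := div_le_self hXp.le hQr
      calc 2000 * ((X : ℝ) / Q + 1) / W ^ 2 ≤ 4000 * X / s ^ 15 := by
            apply div_le_div₀ (by positivity) (by linarith) (by positivity) hW15
        _ = 4000 / s ^ 5 := by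
            rw [← hs10]
            field_simp
    have e3 : π0 ^ (-(2 / (N : ℝ))) / (1 - 0) ^ 2 + 0 / π0 ^ 2 - 1 ≤ s := by
      rw [sub_zero, one_pow, div_one, zero_div, add_zero]
      linarith
    have hDI0 : 0 ≤ (Dep.card : ℝ) / I ^ 2 := by positivity
    have h1 : (Dep.card : ℝ) / I ^ 2 * (π0 ^ (-(2 / (N : ℝ))) / (1 - 0) ^ 2 + 0 / π0 ^ 2 - 1) ≤ 4000 / s ^ 5 * s :=
      (mul_le_mul_of_nonneg_left e3 hDI0).trans (mul_le_mul_of_nonneg_right e2 hsp.le)
    have h2 : 4000 / s ^ 5 * s ≤ s⁻¹ / 2 := by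
      have h3 : 4000 / s ^ 5 * s = 4000 / s ^ 4 := by
        field_simp
      have h4 : s⁻¹ / 2 = 1 / (2 * s) := by
        field_simp
      rw [h3, h4, div_le_div_iff₀ (by positivity) (by positivity)]
      have h5 : 8000 * s ≤ s * s := mul_le_mul_of_nonneg_right b4 hsp.le
      have h6 : s * s ≤ s ^ 4 := by
        have h7 : 1 ≤ s ^ 2 := one_le_pow₀ (by linarith)
        have h8 : s * s * 1 ≤ s * s * s ^ 2 := mul_le_mul_of_nonneg_left h7 (by positivity)
        calc s * s = s * s * 1 := by ring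
          _ ≤ s * s * s ^ 2 := h8
          _ = s ^ 4 := by ring
      linarith
    have h3 : s⁻¹ ≤ (X : ℝ) ^ (-c) := by
      rw [hs, ← Real.rpow_neg hXp.le]
      apply Real.rpow_le_rpow_of_exponent_le hX1
      rw [hc]
      nlinarith only [hε0, hε1]
    have h4 : 0 ≤ (X : ℝ) ^ (-c) := by positivity
    linarith

end Pool.Agent.Q24.ML
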