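import Pool.Agent.Q112.ML.Stm

/-!
# Project ML: job TC (lower bound for the tails in a class)
-/

set_option autoImplicit false

namespace Pool.Agent.Q24.ML

open Finset Filter MeasureTheory ProbabilityTheory Pool.Agent.Q112.LE Pool.Agent.Q112.ML
open Pool.Agent.Q120.GM hiding cls
open scoped Topology

/-- The number of elements of a class. -/
lemma card_cls_abs (N q a : ℕ) (hq : 1 ≤ q) : |((cls N q a).card : ℝ) - (N : ℝ) / q| ≤ 1 := by
  have e : cls N q a = {x ∈ Ioc 0 N | x ≡ a [MOD q]} := by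
    ext n
    simp only [cls, mem_filter, mem_Icc, mem_Ioc]
    constructor
    · rintro ⟨⟨h1, h2⟩, h3⟩
      exact ⟨⟨by omega, h2⟩, h3⟩
    · rintro ⟨⟨h1, h2⟩, h3⟩
      exact ⟨⟨by omega, h2⟩, h3⟩
  have h := Nat.Ioc_filter_modEq_card 0 N (by omega : 0 < q) a
  rw [← e] at h
  have hq0 : (0 : ℚ) < q := by exact_mod_cast hq
  set f1 : ℤ := ⌊((N : ℚ) - a) / (q : ℚ)⌋ with hf1
  set f2 : ℤ := ⌊(((0 : ℕ) : ℚ) - a) / (q : ℚ)⌋ with hf2
  have a1 : (f1 : ℚ) ≤ ((N : ℚ) - a) / q := Int.floor_le _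
  have a2 : ((N : ℚ) - a) / q < f1 + 1 := Int.lt_floor_add_one _
  have b1 : (f2 : ℚ) ≤ (((0 : ℕ) : ℚ) - a) / q := Int.floor_le _
  have b2 : (((0 : ℕ) : ℚ) - a) / q < f2 + 1 := Int.lt_floor_add_one _
  rw [Nat.cast_zero, zero_sub, neg_div] at b1 b2
  rw [sub_div] at a1 a2
  have hN : (0 : ℚ) ≤ (N : ℚ) / q := by positivity
  have c1 : (((cls N q a).card : ℕ) : ℚ) = max ((f1 : ℚ) - f2) 0 := by
    have h' := congrArg (fun z : ℤ => (z : ℚ)) h
    push_cast at h'
    exact h'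
  have key : |(((cls N q a).card : ℕ) : ℚ) - (N : ℚ) / q| ≤ 1 := by
    rw [c1, abs_le]
    constructor
    · have := le_max_left ((f1 : ℚ) - f2) 0
      linarith
    · have : max ((f1 : ℚ) - f2) 0 ≤ (N : ℚ) / q + 1 := max_le (by linarith) (by linarith)
      linarith
  have key2 := (Rat.cast_le (K := ℝ)).2 key
  push_cast at key2
  exact key2

/-- The number of small elements of a class. -/
lemma card_small (N q a : ℕ) (hq : 1 ≤ q) (z : ℝ) :
    ((((cls N q a).filter (fun n : ℕ => Real.log n < z)).card : ℕ) : ℝ) ≤ Real.exp z / q + 1 := by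
  have hsub : (cls N q a).filter (fun n : ℕ => Real.log n < z) ⊆ cls ⌊Real.exp z⌋₊ q a := by
    intro n hn
    rw [mem_filter] at hn
    obtain ⟨h1, h2⟩ := hn
    simp only [cls, mem_filter, mem_Icc] at h1 ⊢
    refine ⟨⟨h1.1.1, ?_⟩, h1.2⟩
    apply Nat.le_floor
    have hn0 : (0 : ℝ) < n := by exact_mod_cast h1.1.1
    exact ((Real.log_lt_iff_lt_exp hn0).1 h2).le
  have h1 := card_le_card hsub
  have h2 := (abs_le.1 (card_cls_abs ⌊Real.exp z⌋₊ q a hq)).2
  have hq0 : (0 : ℝ) < q := by exact_mod_cast hq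
  have h3 : ((⌊Real.exp z⌋₊ : ℕ) : ℝ) / q ≤ Real.exp z / q := by
    apply div_le_div_of_nonneg_right _ hq0.le
    exact Nat.floor_le (Real.exp_pos z).le
  have h4 : ((((cls N q a).filter (fun n : ℕ => Real.log n < z)).card : ℕ) : ℝ) ≤
      ((cls ⌊Real.exp z⌋₊ q a).card : ℝ) := by exact_mod_cast h1
  linarith

lemma one_le_qq {Q : ℕ} (hQ : 1 ≤ Q) : 1 ≤ qq Q := by
  unfold qq
  have h1 : (0 : ℝ) < Nat.totient Q := by exact_mod_cast Nat.totient_pos.2 hQ
  rw [le_div_iff₀ h1, one_mul]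
  exact_mod_cast Nat.totient_le Q

/-- The last step: from the exponent to a power of `q`. -/
lemma fin_pow {ε lq E : ℝ} {q : ℕ} (hq : 0 < q) (hlq : lq = Real.log q) (h1 : E ≤ (2 - 3 * ε / 2) * lq)
    (h2 : 1 ≤ ε / 2 * lq) : (q : ℝ) ^ (-(2 - ε)) ≤ Real.exp (-E) / 2 := by
  have hq0 : (0 : ℝ) < q := by exact_mod_cast hq
  rw [Real.rpow_def_of_pos hq0, ← hlq]
  have h3 : Real.exp (-E) / 2 = Real.exp (-E - Real.log 2) := by
    rw [Real.exp_sub, Real.exp_log (by norm_num)]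
  rw [h3]
  apply Real.exp_le_exp.2
  have h4 : Real.log 2 < 1 := by
    have := Real.log_two_lt_d9
    linarith
  nlinarith

theorem tc : S_TL → S_RT → S_TC := by
  intro hTL hRT Q hQ ε hε0 hε1
  obtain ⟨R1, R2, R3, R4, R5, R6, R7, R8, R9, R10, R11⟩ := hRT
  have hK1 : 1 ≤ qq Q := one_le_qq hQ
  obtain ⟨K, hK⟩ : ∃ K : ℝ, K = qq Q := ⟨_, rfl⟩
  rw [← hK] at hK1
  obtain ⟨c, hc0, hc1, hc⟩ := R6 (ε / 10) (by positivity)
  obtain ⟨η, hη⟩ : ∃ η : ℝ, η = min (ε ^ 2 / 100) ((1 - c) / 3) := ⟨_, rfl⟩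
  have hη0 : 0 < η := by
    rw [hη]
    apply lt_min
    · positivity
    · linarith
  have hη1 : η ≤ ε ^ 2 / 100 := by
    rw [hη]
    exact min_le_left _ _
  have hη3 : η ≤ (1 - c) / 3 := by
    rw [hη]
    exact min_le_right _ _
  have hη2 : c * (1 + 3 * η) ≤ 1 := by nlinarith only [hη3, mul_le_mul_of_nonneg_left hη3 hc0.le, hc0, hc1, sq_nonneg (1 - c)]
  have hηε : η ≤ ε / 200 := by nlinarith only [hη1, hε0, hε1]
  have hη4 : η ≤ 1 / 400 := by linarith
  refine ⟨η, hη0, by linarith, ?_⟩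
  obtain ⟨c0, hc00, hTL1⟩ := hTL Q hQ (ε / 2) η (by positivity) (by linarith) hη0 (by linarith)
  obtain ⟨c1, hc1p, hc1e⟩ : ∃ c1 : ℝ, 0 < c1 ∧ Real.exp (-c1) ≤ c0 / 4 := by
    refine ⟨max 1 (-Real.log (c0 / 4)), lt_of_lt_of_le one_pos (le_max_left _ _), ?_⟩
    rw [← Real.le_log_iff_exp_le (by positivity)]
    have := le_max_right 1 (-Real.log (c0 / 4))
    linarith
  obtain ⟨L0, hL0, hTL2⟩ := hTL1 c1 hc1p
  obtain ⟨B, hB1, hB2, hB3, hB4, hB5, hB6, hB7, hB8⟩ : ∃ B : ℝ, 14 ≤ B ∧ L0 ≤ B ∧ 3 / ε ≤ B ∧ 2 / c0 + 2 ≤ B ∧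
      2 * L0 / ε ≤ B ∧ 8 * L0 ≤ B ∧ 8 * K / η ≤ B ∧ 2 / ε ^ 2 ≤ B := by
    have i1 : 0 < 3 / ε := by positivity
    have i2 : 0 < 2 / c0 := by positivity
    have i3 : 0 < 2 * L0 / ε := by positivity
    have i4 : 0 < 8 * K / η := by positivity
    have i5 : 0 < 2 / ε ^ 2 := by positivity
    refine ⟨14 + L0 + 3 / ε + (2 / c0 + 2) + 2 * L0 / ε + 8 * L0 + 8 * K / η + 2 / ε ^ 2, ?_, ?_, ?_, ?_, ?_, ?_,
      ?_, ?_⟩ <;> linarith
  have tl : Tendsto (fun X : ℕ => Real.log (X : ℝ)) atTop atTop :=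
    Real.tendsto_log_atTop.comp tendsto_natCast_atTop_atTop
  filter_upwards [tl.eventually_ge_atTop B, ((tendsto_rpow_atTop hε0).comp tl).eventually_ge_atTop B,
    ((tendsto_rpow_atTop (half_pos hε0)).comp tl).eventually_ge_atTop B] with X hX1 hX2 hX3
  intro q a hQq haQ h4a haq hXq hqX Ω _ μ _ A hA
  simp only [Function.comp] at hX2 hX3
  rw [← hK]
  obtain ⟨L, hL⟩ : ∃ L : ℝ, L = Real.log (X : ℝ) := ⟨_, rfl⟩
  rw [← hL] at hX1 hX2 hX3 hqX ⊢
  have hLp : 0 < L := by linarith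
  have hq0 : 0 < q := by omega
  have hqr : (0 : ℝ) < q := by exact_mod_cast hq0
  have hXp : (0 : ℝ) < X := by
    have h1 : X ≠ 0 := by
      rintro rfl
      simp at hL
      linarith
    exact_mod_cast Nat.pos_of_ne_zero h1
  -- logarithm of `q`
  obtain ⟨lq, hlq⟩ : ∃ lq : ℝ, lq = Real.log (q : ℝ) := ⟨_, rfl⟩
  rw [← hlq]
  have hlq1 : ε * L ≤ lq := by
    have h1 := Real.log_le_log (Real.rpow_pos_of_pos hXp ε) hXq
    rw [Real.log_rpow hXp] at h1
    rw [hL, hlq]
    exact h1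
  have hLL : L ^ (1 + ε) = L * L ^ ε := by rw [Real.rpow_add hLp, Real.rpow_one]
  have hL1e : B * L ≤ L ^ (1 + ε) := by
    rw [hLL]
    nlinarith only [mul_le_mul_of_nonneg_left hX2 hLp.le]
  have hL1e1 : 1 ≤ L ^ (1 + ε) := by nlinarith only [hL1e, hB1, hX1]
  have hqX' : (q : ℝ) ≤ X := by nlinarith only [mul_le_mul_of_nonneg_left hL1e1 hqr.le, hqX]
  have hlq2 : lq ≤ L := by
    rw [hL, hlq]
    exact Real.log_le_log hqr hqX'
  -- the mean
  obtain ⟨Y, hY⟩ : ∃ Y : ℝ, Y = (X : ℝ) / q := ⟨_, rfl⟩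
  have hY1 : L ^ (1 + ε) ≤ Y := by
    rw [hY, le_div_iff₀ hqr]
    linarith
  rw [← hY]
  have hYB : B ≤ Y := by nlinarith only [hL1e, hY1, hB1, hX1]
  obtain ⟨y, hy⟩ : ∃ y : ℝ, y = K * Y := ⟨_, rfl⟩
  rw [← hy]
  have hyY : Y ≤ y := by
    rw [hy]
    nlinarith only [hK1, hYB, hB1, mul_nonneg (sub_nonneg.2 hK1) (show 0 ≤ Y by linarith)]
  have hy1 : L ^ (1 + ε) ≤ y := hY1.trans hyY
  have hyp : 0 < y := by linarith
  have hm := card_cls_abs X q a hq0
  rw [← hY] at hm
  obtain ⟨m, hmd⟩ : ∃ m : ℝ, m = ((cls X q a).card : ℝ) := ⟨_, rfl⟩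
  rw [← hmd] at hm
  obtain ⟨hm1, hm2⟩ := abs_le.1 hm
  obtain ⟨M, hM⟩ : ∃ M : ℝ, M = K * m := ⟨_, rfl⟩
  have hM1 : y - K ≤ M := by
    rw [hM, hy]
    nlinarith only [mul_le_mul_of_nonneg_left hm1 (show 0 ≤ K by linarith)]
  have hM2 : M ≤ y + K := by
    rw [hM, hy]
    nlinarith only [mul_le_mul_of_nonneg_left hm2 (show 0 ≤ K by linarith)]
  have h8K : 8 * K ≤ η * B := by
    rw [div_le_iff₀ hη0] at hB7
    linarith
  have hKB : K ≤ η * y := by nlinarith only [h8K, mul_le_mul_of_nonneg_left (hYB.trans hyY) hη0.le, hK1]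
  have hM3 : M ≤ (1 + η) * y := by linarith
  have hM4 : y / 2 ≤ M := by nlinarith only [hM1, hKB, mul_nonneg (sub_nonneg.2 hη4) hyp.le, hyp]
  have hMp : 0 < M := by linarith
  -- the hypotheses on the window
  have hW1 : ∀ n ∈ cls X q a, Nat.Coprime n Q ∧ ε / 2 * L ≤ Real.log n ∧ Real.log n ≤ L := by
    intro n hn
    simp only [cls, mem_filter, mem_Icc] at hn
    obtain ⟨⟨hn1, hn2⟩, hn3⟩ := hn
    have hna : a ≤ n := by
      have h1 : n % q = a % q := hn3
      rw [Nat.mod_eq_of_lt haq] at h1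
      have := Nat.mod_le n q
      omega
    refine ⟨?_, ?_, ?_⟩
    · have h1 : n ≡ a [MOD Q] := hn3.of_dvd hQq
      rw [Nat.Coprime, h1.gcd_eq]
      exact haQ
    · have h1 : (q : ℝ) / 4 ≤ n := by
        have : (q : ℝ) ≤ 4 * n := by exact_mod_cast (by omega : q ≤ 4 * n)
        linarith
      have h2 := Real.log_le_log (by positivity) h1
      rw [Real.log_div hqr.ne' (by norm_num), ← hlq] at h2
      have h3 : Real.log 4 ≤ 3 / 2 := by
        have h4 : Real.log 4 = 2 * Real.log 2 := by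
          rw [show (4 : ℝ) = 2 ^ 2 by norm_num, Real.log_pow]
          norm_num
        have := Real.log_two_lt_d9
        rw [h4]
        linarith
      have h4 : 3 ≤ ε * L := by
        have h5 : 3 / ε ≤ L := hB3.trans hX1
        rw [div_le_iff₀ hε0] at h5
        linarith
      linarith
    · rw [hL]
      apply Real.log_le_log
      · exact_mod_cast hn1
      · exact_mod_cast hn2
  have hW2 : ((((cls X q a).filter (fun n : ℕ => Real.log n < L - c1)).card : ℕ) : ℝ) ≤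
      c0 * ((cls X q a).card : ℝ) := by
    have h1 := card_small X q a hq0 (L - c1)
    have h2 : Real.exp (L - c1) = X * Real.exp (-c1) := by
      rw [Real.exp_sub, hL, Real.exp_log hXp, Real.exp_neg]
      rfl
    rw [h2] at h1
    have h3 : (X : ℝ) * Real.exp (-c1) / q = Y * Real.exp (-c1) := by
      rw [hY]
      ring
    rw [h3] at h1
    rw [← hmd]
    have hYp : 0 < Y := by linarith
    have h4 : Y * Real.exp (-c1) ≤ Y * (c0 / 4) := mul_le_mul_of_nonneg_left hc1e hYp.le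
    have h5 : 2 + 2 * c0 ≤ c0 * Y := by
      have h6 : 2 / c0 + 2 ≤ Y := hB4.trans hYB
      have h7 : c0 * (2 / c0 + 2) ≤ c0 * Y := mul_le_mul_of_nonneg_left h6 hc00.le
      have h8 : c0 * (2 / c0 + 2) = 2 + 2 * c0 := by
        field_simp
      linarith
    nlinarith only [h1, h4, h5, mul_le_mul_of_nonneg_left hm1 hc00.le, hc00]
  have hTr : ∀ r : ℝ, -1 + ε / 2 ≤ r → r ≤ L ^ (1 - ε / 2) → r ≠ 0 → L0 * L ≤ M * min |r| (r ^ 2) →
      Real.exp (-((1 + 3 * η / (ε / 2)) * (M / L) * rate r)) / 2 ≤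
        μ.real {ω | |psi (A ω) X q a - (1 + r) * M| ≤ η * |r| * M} := by
    intro r h1 h2 h3 h4
    have h5 := hTL2 Ω μ A hA (cls X q a) L r (hB2.trans hX1) hW1 hW2 h1 h2 h3 (by
      rw [← hK, ← hmd, ← hM]
      exact h4)
    rw [← hK, ← hmd, ← hM] at h5
    exact h5
  clear hTL2 hTL1 hTL hW1 hW2
  have hLm : L ^ (1 + ε) * L ^ (1 - ε) = L ^ 2 := by
    rw [← Real.rpow_add hLp, show (1 + ε) + (1 - ε) = ((2 : ℕ) : ℝ) by push_cast; ring, Real.rpow_natCast]
  have hP1 : 1 ≤ L ^ (1 - ε) := Real.one_le_rpow (by linarith) (by linarith)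
  have hPh : L ^ (1 - ε / 2) = L ^ (1 - ε) * L ^ (ε / 2) := by
    rw [← Real.rpow_add hLp]
    congr 1
    ring
  have hLε : 3 ≤ ε * L := by
    have h5 : 3 / ε ≤ L := hB3.trans hX1
    rw [div_le_iff₀ hε0] at h5
    linarith
  have hLL0 : 2 * L0 ≤ ε * L := by
    have h5 : 2 * L0 / ε ≤ L := hB5.trans hX1
    rw [div_le_iff₀ hε0] at h5
    linarith
  have hlq3 : 1 ≤ ε / 2 * lq := by
    have h5 : 2 / ε ^ 2 ≤ L := hB8.trans hX1
    rw [div_le_iff₀ (by positivity)] at h5
    have h6 : ε * (ε * L) ≤ ε * lq := mul_le_mul_of_nonneg_left hlq1 hε0.le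
    nlinarith only [h5, h6]
  have hlqp : 0 < lq := by nlinarith only [hlq1, hLε]
  have hΛ1 : 0 < 1 - ε := by linarith
  have hsc1 : ε * L ^ 2 ≤ 2 * (1 - ε) * lq * L := by
    have h1 : lq ≤ 2 * (1 - ε) * lq := by nlinarith only [hlqp, mul_nonneg hlqp.le (sub_nonneg.2 hε1)]
    have h2 : ε * L ≤ 2 * (1 - ε) * lq := hlq1.trans h1
    have h3 := mul_le_mul_of_nonneg_right h2 hLp.le
    nlinarith only [h3]
  have hsc2 : 2 * (1 - ε) * lq * L ≤ 2 * L ^ 2 := by
    have h1 : 2 * (1 - ε) * lq ≤ 2 * lq := by nlinarith only [mul_pos hlqp hε0]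
    have h2 : 2 * (1 - ε) * lq ≤ 2 * L := by linarith
    have h3 := mul_le_mul_of_nonneg_right h2 hLp.le
    nlinarith only [h3]
  have hyB : B * L ≤ y := hL1e.trans hy1
  have hyB' : B ≤ y := by nlinarith only [hyB, hB1, hX1]
  have hη6 : 3 * η / (ε / 2) ≤ 6 * ε / 100 := by
    rw [div_le_iff₀ (by positivity)]
    nlinarith only [hη1, hε0, hη0]
  have hη6' : 0 < 3 * η / (ε / 2) := by positivity
  refine ⟨?_, ?_⟩
  · intro u hu hur
    have hr0 : 0 ≤ rate u := le_trans (by positivity) (R9 u hu.le)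
    have hE1 : ε * L ^ 2 ≤ y * rate u := by
      rw [hur]
      exact hsc1
    have hE2 : y * rate u ≤ 2 * L ^ 2 := by
      rw [hur]
      exact hsc2
    have hu1 : rate u ≤ 2 * L ^ (1 - ε) := by
      by_contra hcon
      push Not at hcon
      have h1 : L ^ (1 + ε) * (2 * L ^ (1 - ε)) < y * rate u :=
        mul_lt_mul' hy1 hcon (by positivity) hyp
      nlinarith only [h1, hE2, hLm]
    have hu2 : u ≤ 6 * L ^ (1 - ε) + 1 := by
      by_contra hcon
      push Not at hcon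
      have h1 : 1 < u := by linarith
      have h2 : u / 3 ≤ u ^ 2 / (2 + u) := by
        rw [div_le_div_iff₀ (by norm_num) (by linarith)]
        nlinarith only [h1, mul_pos (lt_trans one_pos h1) (sub_pos.2 h1)]
      have h3 := R9 u hu.le
      linarith
    obtain ⟨r, hr⟩ : ∃ r : ℝ, r = (1 + 3 * η) * u := ⟨_, rfl⟩
    have hur1 : u ≤ r := by
      rw [hr]
      nlinarith only [mul_pos hη0 hu]
    have hrp : 0 < r := by linarith
    have hr1 : r ≤ 2 * u := by
      rw [hr]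
      nlinarith only [mul_nonneg (sub_nonneg.2 hη4) hu.le, hu]
    have hr2 : r ≤ L ^ (1 - ε / 2) := by
      rw [hPh]
      have h2 : 14 * L ^ (1 - ε) ≤ L ^ (1 - ε) * L ^ (ε / 2) := by
        nlinarith only [mul_le_mul_of_nonneg_left (hB1.trans hX3) (le_trans zero_le_one hP1)]
      linarith
    have hsize : L0 * L ≤ M * min |r| (r ^ 2) := by
      rw [abs_of_pos hrp]
      by_cases h1 : u ≤ 1
      · have h2 : u ^ 2 ≤ min r (r ^ 2) := le_min (by nlinarith only [h1, hu, hur1]) (by nlinarith only [hu, hur1])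
        have h3 := R1 u hu.le
        have h4 : ε * L ^ 2 ≤ y * (u ^ 2 / 2) := hE1.trans (mul_le_mul_of_nonneg_left h3 hyp.le)
        have h5 : y / 2 * u ^ 2 ≤ M * min r (r ^ 2) :=
          mul_le_mul hM4 h2 (by positivity) hMp.le
        nlinarith only [h4, h5, mul_le_mul_of_nonneg_right hLL0 hLp.le, mul_pos hL0 hLp]
      · push Not at h1
        have h2 : 1 ≤ min r (r ^ 2) := le_min (by linarith) (by nlinarith only [h1, hur1])
        have h5 : M * 1 ≤ M * min r (r ^ 2) := mul_le_mul_of_nonneg_left h2 hMp.le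
        nlinarith only [h5, hM4, hyB, mul_le_mul_of_nonneg_right hB6 hLp.le, mul_pos hL0 hLp]
    have huy : B ≤ u * y := by
      by_cases h1 : u ≤ 1
      · have h3 := R1 u hu.le
        have h4 : ε * L ^ 2 ≤ y * (u ^ 2 / 2) := hE1.trans (mul_le_mul_of_nonneg_left h3 hyp.le)
        have h5 : u ^ 2 * y ≤ u * y := by
          nlinarith only [mul_nonneg (mul_nonneg hu.le hyp.le) (sub_nonneg.2 h1)]
        nlinarith only [h4, h5, mul_le_mul_of_nonneg_right hLε hLp.le, hX1, hLp]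
      · push Not at h1
        nlinarith only [hyB', mul_pos (sub_pos.2 h1) hyp]
    have hev : (1 + (1 + η) * u) * y ≤ (1 + r) * M - η * |r| * M := by
      rw [abs_of_pos hrp]
      have h1 : 1 + (1 + 3 * η / 2) * u ≤ 1 + r - η * r := by
        rw [hr]
        have : 0 ≤ η * u * (1 / 2 - 3 * η) := by
          apply mul_nonneg (by positivity)
          linarith
        nlinarith only [this]
      have h2 : (1 + (1 + 3 * η / 2) * u) * (y - K) ≤ (1 + r - η * r) * M :=
        mul_le_mul h1 hM1 (by nlinarith only [hKB, mul_nonneg (sub_nonneg.2 hη4) hyp.le, hyp])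
          (by nlinarith only [mul_nonneg (sub_nonneg.2 hη4) hrp.le, hrp])
      have h3 : 8 * K ≤ η * (u * y) := h8K.trans (mul_le_mul_of_nonneg_left huy hη0.le)
      have h4 : 8 * K * u ≤ η * y * u := by
        apply mul_le_mul_of_nonneg_right _ hu.le
        exact h8K.trans (mul_le_mul_of_nonneg_left hyB' hη0.le)
      have h5 : K * (3 * η / 2) * u ≤ K * u := by
        have : 0 < K * u := by positivity
        nlinarith only [mul_nonneg (sub_nonneg.2 hη4) this.le, this]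
      nlinarith only [h2, h3, h4, h5, mul_pos (mul_pos hη0 hu) hyp]
    have hcost : (1 + 3 * η / (ε / 2)) * (M / L) * rate r ≤ (2 - 3 * ε / 2) * lq := by
      have h1 := R4 (1 / (1 + 3 * η)) r (by positivity) (by
        rw [div_le_one (by positivity)]
        linarith) hrp.le
      have h2 : 1 / (1 + 3 * η) * r = u := by
        rw [hr]
        field_simp
      rw [h2] at h1
      have h3 : rate r ≤ (1 + 3 * η) ^ 2 * rate u := by
        have h4 : (1 / (1 + 3 * η)) ^ 2 * rate r = rate r / (1 + 3 * η) ^ 2 := by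
          rw [div_pow, one_pow]
          ring
        rw [h4, div_le_iff₀ (by positivity)] at h1
        linarith
      have h4 : M / L ≤ (1 + η) * y / L := div_le_div_of_nonneg_right hM3 hLp.le
      have h5 : (1 + 3 * η / (ε / 2)) * (M / L) * rate r ≤
          (1 + 6 * ε / 100) * ((1 + η) * y / L) * ((1 + 3 * η) ^ 2 * rate u) := by
        apply mul_le_mul _ h3 (le_trans (by positivity) (R9 r hrp.le)) (by positivity)
        apply mul_le_mul (by linarith) h4 (by positivity) (by positivity)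
      have h6 : (1 + 6 * ε / 100) * ((1 + η) * y / L) * ((1 + 3 * η) ^ 2 * rate u) =
          (1 + 6 * ε / 100) * (1 + η) * (1 + 3 * η) ^ 2 * (2 * (1 - ε)) * lq := by
        have h7 : (1 + 6 * ε / 100) * ((1 + η) * y / L) * ((1 + 3 * η) ^ 2 * rate u) =
          (1 + 6 * ε / 100) * (1 + η) * (1 + 3 * η) ^ 2 * (y * rate u) / L := by ring
        rw [h7, hur]
        field_simp
      rw [h6] at h5
      refine h5.trans (mul_le_mul_of_nonneg_right ?_ hlqp.le)
      have h8 : (1 + η) ≤ 1 + ε / 200 := by linarith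
      have h9 : (1 + 3 * η) ^ 2 ≤ 1 + ε / 30 := by nlinarith only [hηε, hη0, hε0, hε1]
      have h10 : (1 + 6 * ε / 100) * (1 + η) ≤ 1 + ε / 14 := by nlinarith only [hηε, hη0, hε0, hε1]
      have h11 : (1 + 6 * ε / 100) * (1 + η) * (1 + 3 * η) ^ 2 ≤ (1 + ε / 14) * (1 + ε / 30) :=
        mul_le_mul h10 h9 (by positivity) (by positivity)
      have h12 : (1 + ε / 14) * (1 + ε / 30) ≤ 1 + ε / 8 := by nlinarith only [hε0, hε1]
      have h13 : (1 + 6 * ε / 100) * (1 + η) * (1 + 3 * η) ^ 2 * (2 * (1 - ε)) ≤ (1 + ε / 8) * (2 * (1 - ε)) :=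
        mul_le_mul_of_nonneg_right (h11.trans h12) (by linarith)
      nlinarith only [h13, hε0, hε1]
    refine (fin_pow hq0 hlq hcost hlq3).trans ((hTr r (by linarith) hr2 hrp.ne' hsize).trans ?_)
    refine measureReal_mono ?_ (measure_ne_top _ _)
    intro ω hω
    simp only [Set.mem_ofPred_eq] at hω ⊢
    have := (abs_le.1 hω).1
    linarith
  · intro v hv hv1 hvr hcase
    have hv2 : v ≤ 1 := by linarith
    obtain ⟨R5a, R5b⟩ := R5 v hv.le hv2
    obtain ⟨r, hr⟩ : ∃ r : ℝ, r = (1 + 3 * η) * v := ⟨_, rfl⟩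
    have hvr1 : v ≤ r := by
      rw [hr]
      nlinarith only [mul_pos hη0 hv]
    have hrp : 0 < r := by linarith
    have hr1 : r ≤ 1 - ε / 2 := by
      rw [hr]
      nlinarith only [mul_le_mul_of_nonneg_left hv1 (show (0 : ℝ) ≤ 1 + 3 * η by positivity), hηε,
        mul_pos hη0 hε0, hε0]
    have hrle : r ≤ 1 := by linarith
    have hva : L ^ (1 + ε) / 4 ≤ v ^ 2 * y ∨ ε * L ^ 2 ≤ v ^ 2 * y := by
      rcases hcase with h1 | h1
      · left
        have h2 : 1 / 2 ≤ v := by linarith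
        have h3 : 1 / 4 ≤ v ^ 2 := by nlinarith only [h2]
        nlinarith only [mul_le_mul_of_nonneg_right h3 hyp.le, hy1]
      · right
        have h2 : y * rate (-v) ≤ y * v ^ 2 := mul_le_mul_of_nonneg_left R5b hyp.le
        rw [h1] at h2
        linarith
    have hv2y : 2 * (L0 * L) ≤ v ^ 2 * y := by
      rcases hva with h1 | h1
      · nlinarith only [h1, hL1e, mul_le_mul_of_nonneg_right hB6 hLp.le]
      · nlinarith only [h1, mul_le_mul_of_nonneg_right hLL0 hLp.le]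
    have hv2y' : B ≤ v ^ 2 * y := by
      rcases hva with h1 | h1
      · nlinarith only [h1, hL1e, mul_le_mul_of_nonneg_left (hB1.trans hX1) (show 0 ≤ B by linarith), hB1]
      · nlinarith only [h1, mul_le_mul_of_nonneg_right hLε hLp.le, hX1, hLp]
    have hvy : B ≤ v * y := by
      have : v ^ 2 * y ≤ v * y := by
        nlinarith only [mul_nonneg (mul_nonneg hv.le hyp.le) (sub_nonneg.2 hv2)]
      linarith
    have hsize : L0 * L ≤ M * min |-r| ((-r) ^ 2) := by
      rw [abs_neg, abs_of_pos hrp, neg_sq]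
      have h2 : v ^ 2 ≤ min r (r ^ 2) := le_min (by nlinarith only [hv, hv2, hvr1]) (by nlinarith only [hv, hvr1])
      have h5 : y / 2 * v ^ 2 ≤ M * min r (r ^ 2) :=
        mul_le_mul hM4 h2 (by positivity) hMp.le
      linarith
    have hev : (1 + -r) * M + η * |-r| * M ≤ (1 - (1 + η) * v) * y := by
      rw [abs_neg, abs_of_pos hrp]
      have h1 : 1 - r + η * r ≤ 1 - (1 + 3 * η / 2) * v := by
        rw [hr]
        have : 0 ≤ η * v * (1 / 2 - 3 * η) := by
          apply mul_nonneg (by positivity)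
          linarith
        nlinarith only [this]
      have h0 : 0 ≤ 1 - (1 + 3 * η / 2) * v := by
        nlinarith only [hv1, hηε, hε0, mul_nonneg hη0.le (sub_nonneg.2 hv2)]
      have h2 : (1 - r + η * r) * M ≤ (1 - (1 + 3 * η / 2) * v) * (y + K) :=
        mul_le_mul h1 hM2 hMp.le h0
      have h3 : 8 * K ≤ η * (v * y) := h8K.trans (mul_le_mul_of_nonneg_left hvy hη0.le)
      have h4 : (1 - (1 + 3 * η / 2) * v) * K ≤ 1 * K := by
        apply mul_le_mul_of_nonneg_right _ (by linarith)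
        nlinarith only [mul_pos hη0 hv, hv]
      nlinarith only [h2, h3, h4, mul_pos (mul_pos hη0 hv) hyp]
    have hcost : (1 + 3 * η / (ε / 2)) * (M / L) * rate (-r) ≤ (2 - 3 * ε / 2) * lq := by
      have h1 := hc (1 / (1 + 3 * η)) r (by
        rw [le_div_iff₀ (by positivity)]
        exact hη2) (by
        rw [div_le_one (by positivity)]
        linarith) hrp.le hrle
      have h2 : 1 / (1 + 3 * η) * r = v := by
        rw [hr]
        field_simp
      rw [h2] at h1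
      have hrr : 0 ≤ rate (-r) := le_trans (by positivity) (R5 r hrp.le hrle).1
      have h4 : M / L ≤ (1 + η) * y / L := div_le_div_of_nonneg_right hM3 hLp.le
      have h5 : (1 + 3 * η / (ε / 2)) * (M / L) * rate (-r) ≤
          (1 + 6 * ε / 100) * ((1 + η) * y / L) * rate (-r) := by
        apply mul_le_mul_of_nonneg_right _ hrr
        apply mul_le_mul (by linarith) h4 (by positivity) (by positivity)
      have h6 : (1 - ε / 10) * (y * rate (-r)) ≤ 2 * (1 - ε) * lq * L := by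
        have h7 := mul_le_mul_of_nonneg_left h1 hyp.le
        linarith
      have h7 : (1 - ε / 10) * ((1 + 6 * ε / 100) * ((1 + η) * y / L) * rate (-r)) ≤
          (1 + 6 * ε / 100) * (1 + η) * (2 * (1 - ε)) * lq := by
        have h8 : (1 - ε / 10) * ((1 + 6 * ε / 100) * ((1 + η) * y / L) * rate (-r)) =
          (1 + 6 * ε / 100) * (1 + η) * ((1 - ε / 10) * (y * rate (-r))) / L := by ring
        rw [h8, div_le_iff₀ hLp]
        have h9 : (1 + 6 * ε / 100) * (1 + η) * ((1 - ε / 10) * (y * rate (-r))) ≤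
            (1 + 6 * ε / 100) * (1 + η) * (2 * (1 - ε) * lq * L) :=
          mul_le_mul_of_nonneg_left h6 (by positivity)
        linarith
      have h10 : (1 + 6 * ε / 100) * (1 + η) ≤ 1 + ε / 14 := by nlinarith only [hηε, hη0, hε0, hε1]
      have h11 : (1 + 6 * ε / 100) * (1 + η) * (2 * (1 - ε)) * lq ≤ (1 + ε / 14) * (2 * (1 - ε)) * lq := by
        apply mul_le_mul_of_nonneg_right _ hlqp.le
        exact mul_le_mul_of_nonneg_right h10 (by linarith)
      have h12 : (1 + ε / 14) * (2 * (1 - ε)) ≤ (1 - ε / 10) * (2 - 3 * ε / 2) := by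
        nlinarith only [hε0, hε1, sq_nonneg ε]
      have h13 : (1 - ε / 10) * ((1 + 3 * η / (ε / 2)) * (M / L) * rate (-r)) ≤
          (1 - ε / 10) * ((2 - 3 * ε / 2) * lq) := by
        have h14 := mul_le_mul_of_nonneg_left h5 (show (0 : ℝ) ≤ 1 - ε / 10 by linarith)
        have h15 := mul_le_mul_of_nonneg_right h12 hlqp.le
        linarith
      exact le_of_mul_le_mul_left h13 (by linarith)
    refine (fin_pow hq0 hlq hcost hlq3).trans ((hTr (-r) (by linarith) (by
      rw [hPh]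
      have : 0 ≤ L ^ (1 - ε) * L ^ (ε / 2) := by positivity
      linarith) (by linarith) hsize).trans ?_)
    refine measureReal_mono ?_ (measure_ne_top _ _)
    intro ω hω
    simp only [Set.mem_ofPred_eq] at hω ⊢
    have := (abs_le.1 hω).2
    linarith

end Pool.Agent.Q24.ML
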