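import Pool.Agent.Q24.ML.Base

/-!
# Solvable-type normal subgroups, and the converse
-/

set_option autoImplicit false

open Filter NumberField
open Pool.Agent.TH444.TW (Cls)
open Pool.Agent.TH444.ML (Gal IsC2Wr Cnt)

namespace Pool.Agent.Q24.ML

/-- `X → Q` is in the class for every epimorphism with kernel `M`. -/
def ClsBy {X : Type} [Group X] (M : Subgroup X) : Prop :=
  ∀ (K : Type) [Field K] (Q : Type) [Group Q] (p : X →* Q), Function.Surjective p → p.ker = M →
    Cls K p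

theorem real_iff_quot (K : Type) [Field K] [NumberField K] {X : Type} [Group X] (M : Subgroup X)
    [M.Normal] (h : ClsBy M) : Real K X ↔ Real K (X ⧸ M) :=
  ⟨fun hX => hX.quot M, fun hQ => hQ.up (Pool.Agent.H391R2.T4.hilb_numberField K)
    (QuotientGroup.mk' M) (h K _ _ (QuotientGroup.mk'_surjective M) (QuotientGroup.ker_mk' M))⟩

theorem real_iff_prod (K : Type) [Field K] [NumberField K] {X : Type} [Group X] (n : ℕ)
    (hn : 120 ^ 3 ≤ n) : Real K (X × Equiv.Perm (Fin n)) ↔ Real K X :=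
  ⟨fun hX => hX.of_surj (MonoidHom.fst _ _) Prod.fst_surjective,
    fun hQ => hQ.up (Pool.Agent.H391R2.T4.hilb_numberField K) _ (cls_fst K X n hn)⟩

theorem real_of_cnt (K : Type) [Field K] [NumberField K] {H : Type} [Group H] [Finite H] {n : ℕ}
    {G : Subgroup (Equiv.Perm (Fin n))} (hG : IsC2Wr H G) (X : ℝ) (h : (Cnt K G X).Nonempty) :
    Real K H := by
  obtain ⟨L, h1, h2, h3⟩ := h
  have h4 : Module.finrank K L = 2 * Nat.card H ∧
      Pool.Agent.TH444.ML.IsWr K (AlgebraicClosure K) H L :=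
    ⟨by rw [h1, Pool.Agent.TH444.ML.c2wr_n hG], (Pool.Agent.TH444.ML.hasGp_iff K hG L).1 h2⟩
  obtain ⟨M, hM, -⟩ := (Pool.Agent.TH365.J3099.wrIff K (AlgebraicClosure K) H L).1 h4
  exact (real_iff K (AlgebraicClosure K) H).2 ⟨M, hM⟩

/-- The group `C₂ ≀ H` exists, and is transitive. -/
theorem exists_group (H : Type) [Group H] [Finite H] : ∃ (d : ℕ)
    (G : Subgroup (Equiv.Perm (Fin d))), d = 2 * Nat.card H ∧ IsC2Wr H G ∧
      ∀ i j : Fin d, ∃ g ∈ G, g i = j := by
  have hcard : Nat.card (H × Bool) = 2 * Nat.card H := by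
    rw [Nat.card_prod, mul_comm]
    simp
  let f : Fin (2 * Nat.card H) ≃ H × Bool := (Finite.equivFinOfCardEq hcard).symm
  let G : Subgroup (Equiv.Perm (Fin (2 * Nat.card H))) :=
    { carrier := {π | ∃ h : H, ∀ i, (f (π i)).1 = h * (f i).1}
      one_mem' := ⟨1, fun i => by simp⟩
      mul_mem' := by
        rintro π ρ ⟨h, hh⟩ ⟨h', hh'⟩
        refine ⟨h * h', fun i => ?_⟩
        rw [Equiv.Perm.mul_apply, hh, hh', mul_assoc]
      inv_mem' := by
        rintro π ⟨h, hh⟩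
        refine ⟨h⁻¹, fun i => ?_⟩
        have h1 := hh (π⁻¹ i)
        rw [show π (π⁻¹ i) = i from π.apply_symm_apply i] at h1
        rw [h1, inv_mul_cancel_left] }
  refine ⟨2 * Nat.card H, G, rfl, ⟨f, fun π => Iff.rfl⟩, fun i j => ?_⟩
  let t : Equiv.Perm (H × Bool) :=
    (Equiv.mulLeft ((f j).1 * (f i).1⁻¹)).prodCongr (Equiv.swap (f i).2 (f j).2)
  refine ⟨f.trans (t.trans f.symm), ⟨(f j).1 * (f i).1⁻¹, fun x => ?_⟩, ?_⟩
  · simp [t]
  · change f.symm (t (f i)) = j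
    rw [Equiv.symm_apply_eq]
    exact Prod.ext (by simp [t]) (by simp [t])

/-- The nilpotent residual of the subgroup `S`: the intersection of its lower central series
`S, [S, S], [[S, S], S], ...`. -/
def nres {X : Type} [Group X] (S : Subgroup X) : Subgroup X :=
  ⨅ n : ℕ, S.lowerCentralSeries n

/-- The iterated nilpotent residuals of `S`. -/
def ress {X : Type} [Group X] (S : Subgroup X) : ℕ → Subgroup X
  | 0 => S
  | i + 1 => nres (ress S i)

instance nres_normal {X : Type} [Group X] (S : Subgroup X) [S.Normal] : (nres S).Normal :=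
  Subgroup.normal_iInf_normal fun _ => inferInstance

lemma ress_eq {X : Type} [Group X] (S : Subgroup X) :
    ∀ i, ress S i = Pool.Agent.Q7.NR.ser S i
  | 0 => rfl
  | i + 1 => by
    change Pool.Agent.Q7.NR.nres (ress S i) = Pool.Agent.Q7.NR.nres _
    rw [ress_eq S i]

theorem clsBy_nres {X : Type} [Group X] [Finite X] (N : Subgroup X) [N.Normal]
    (h1 : ∃ k, ress N k = ⊥)
    (h2 : ∀ i, 1 ≤ i → ⁅ress N i, ress N i⁆ ≤ ress N (i + 1)) : ClsBy (nres N) := by
  intro K _ Q _ p hp hker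
  obtain ⟨k, hk⟩ := h1
  have h3 : Pool.Agent.Q7.NR.ser N (k + 1) = ⊥ := by
    rw [eq_bot_iff, ← hk, ress_eq]
    exact Pool.Agent.Q7.NR.ser_antitone N (Nat.le_succ k)
  exact Pool.Agent.Q7.NR.cls_ser K k X N h3
    (fun i hi => by simpa only [ress_eq] using h2 i hi) _ p hp hker

lemma sylow_imp {X : Type} [Group X] [Finite X] (N : Subgroup X)
    (h : ∀ (p : ℕ) [Fact p.Prime] (P : Sylow p N), ∀ x ∈ P, ∀ y ∈ P, x * y = y * x) :
    ∀ (p : ℕ) (P : Subgroup X), p.Prime → P ≤ N → IsPGroup p P →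
      ∀ x ∈ P, ∀ y ∈ P, x * y = y * x := by
  intro p P hp hPN hP x hx y hy
  have := Fact.mk hp
  have h1 : IsPGroup p (P.subgroupOf N) := hP.comap_subtype
  obtain ⟨Q, hQ⟩ := h1.exists_le_sylow
  exact congrArg Subtype.val (h p Q ⟨x, hPN hx⟩ (hQ hx) ⟨y, hPN hy⟩ (hQ hy))

theorem clsBy_sylow {X : Type} [Group X] [Finite X] (N : Subgroup X) [N.Normal]
    (hN : Group.IsSolvable N)
    (hS : ∀ (p : ℕ) [Fact p.Prime] (P : Sylow p N), ∀ x ∈ P, ∀ y ∈ P, x * y = y * x) :
    ClsBy ⁅N, N⁆ := by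
  have h0 := sylow_imp N hS
  have h3 := Pool.Agent.Q7.NR.ser_of_syl N h0
  have h1 : ∃ k, ress N k = ⊥ := by
    obtain ⟨k, hk⟩ := hN.solvable
    refine ⟨k, ?_⟩
    rw [ress_eq, h3, hk, Subgroup.map_bot]
  have h2 : ∀ i, 1 ≤ i → ⁅ress N i, ress N i⁆ ≤ ress N (i + 1) := by
    intro i _
    rw [ress_eq, ress_eq, h3, h3, derivedSeries_succ, Subgroup.map_commutator]
  have h5 : nres N = ⁅N, N⁆ := Pool.Agent.Q7.NR.nres_of_syl N h0
  rw [← h5]
  exact clsBy_nres N h1 h2

theorem clsBy_abel {X : Type} [Group X] [Finite X] (N : Subgroup X) [N.Normal]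
    (hN : ∀ x ∈ nres N, ∀ y ∈ nres N, x * y = y * x) : ClsBy (nres N) := by
  have h1 : ⁅nres N, nres N⁆ = ⊥ := by
    rw [eq_bot_iff, Subgroup.commutator_le]
    intro x hx y hy
    rw [Subgroup.mem_bot, commutatorElement_eq_one_iff_mul_comm]
    exact hN x hx y hy
  have h2 : ress N 2 = ⊥ := by
    rw [eq_bot_iff, ← h1]
    change nres (nres N) ≤ _
    have h3 : nres (nres N) ≤ (nres N).lowerCentralSeries 1 := iInf_le _ 1
    rwa [Subgroup.lowerCentralSeries_succ, Subgroup.lowerCentralSeries_zero] at h3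
  refine clsBy_nres N ⟨2, h2⟩ fun i hi => ?_
  refine le_trans (Subgroup.commutator_mono (?_ : _ ≤ nres N)
    (?_ : _ ≤ nres N)) (h1.le.trans bot_le)
  all_goals
    rw [ress_eq]
    exact Pool.Agent.Q7.NR.ser_antitone N hi

end Pool.Agent.Q24.ML
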