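import Pool.Agent.TH444.ML.Done
import Pool.Agent.Q7.NR.Fin

/-!
# Realizability of `X` and of `X × S_n`, and core-free subgroups
-/

set_option autoImplicit false

open Pool.Agent.TH444.TW (Cls IsTwistedPower twist)
open Pool.Agent.H391R2 (Wr)
open Pool.Agent.TH444.ML (Gal)

namespace Pool.Agent.Q24.ML

/-- The finite group `G` is the Galois group of a finite Galois extension of `K`. -/
def Real (K G : Type) [Field K] [Group G] : Prop :=
  ∃ (L : Type) (_ : Field L) (_ : Algebra K L) (_ : FiniteDimensional K L) (_ : IsGalois K L),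
    Nonempty (G ≃* (L ≃ₐ[K] L))

lemma Real.congr {K G G' : Type} [Field K] [Group G] [Group G'] (e : G ≃* G') (h : Real K G) :
    Real K G' := by
  obtain ⟨L, i1, i2, i3, i4, ⟨f⟩⟩ := h
  exact ⟨L, i1, i2, i3, i4, ⟨e.symm.trans f⟩⟩

lemma Real.quot {K X : Type} [Field K] [Group X] (M : Subgroup X) [M.Normal] (h : Real K X) :
    Real K (X ⧸ M) := by
  obtain ⟨L, i1, i2, i3, i4, ⟨e⟩⟩ := h
  let H : Subgroup (L ≃ₐ[K] L) := M.map e.toMonoidHom
  have hH : H.Normal := ‹M.Normal›.map e.toMonoidHom e.surjective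
  refine ⟨IntermediateField.fixedField H, inferInstance, inferInstance, inferInstance,
    inferInstance, ⟨?_⟩⟩
  exact (QuotientGroup.congr M H e rfl).trans (IsGalois.normalAutEquivQuotient H)

lemma Real.of_surj {K X Y : Type} [Field K] [Group X] [Group Y] (f : X →* Y)
    (hf : Function.Surjective f) (h : Real K X) : Real K Y :=
  (h.quot f.ker).congr (QuotientGroup.quotientKerEquivOfSurjective f hf)

lemma Real.up {K X Q : Type} [Field K] [Group X] [Group Q]
    (hK : Pool.Agent.H391R2.T4.HilbField K) (p : X →* Q) (hp : Cls K p) (h : Real K Q) :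
    Real K X := by
  obtain ⟨L, i1, i2, i3, i4, ⟨e⟩⟩ := h
  obtain ⟨F, j1, j2, j3, j4, j5, j6, γ, _⟩ := Pool.Agent.Q7.NR.hilb_step hK p hp L e
  exact ⟨F, j1, j2, j5, j6, ⟨γ.symm⟩⟩

theorem real_iff (K : Type) [Field K] [NumberField K] (Ω : Type) [Field Ω] [Algebra K Ω]
    [IsAlgClosure K Ω] (H : Type) [Group H] : Real K H ↔ (Gal K Ω H).Nonempty := by
  constructor
  · rintro ⟨F, i1, i2, i3, i4, ⟨e⟩⟩
    have hac : IsAlgClosed Ω := IsAlgClosure.isAlgClosed K
    let j : F →ₐ[K] Ω := IsAlgClosed.lift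
    let ε : F ≃ₐ[K] j.fieldRange := AlgEquiv.ofInjectiveField j
    refine ⟨j.fieldRange, ?_, ?_, ?_⟩
    · exact Module.Finite.equiv ε.toLinearEquiv
    · exact IsGalois.of_algEquiv ε
    · exact ⟨(AlgEquiv.autCongr ε).symm.trans e.symm⟩
  · rintro ⟨M, h1, h2, ⟨e⟩⟩
    exact ⟨M, inferInstance, inferInstance, h1, h2, ⟨e.symm⟩⟩

/-- `X × S_n → X` is in the class -/
theorem cls_fst (K : Type) [Field K] (X : Type) [Group X] (n : ℕ) (hn : 120 ^ 3 ≤ n) :
    Cls K (MonoidHom.fst X (Equiv.Perm (Fin n))) := by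
  refine Cls.wreath _ Unit n ?_ ?_
  · have : (3 * Nat.card Unit + 2).factorial = 120 := by
      rw [Nat.card_unique]
      rfl
    rw [this]
    exact hn
  · let ι : (Fin 1 → Wr Unit n) →* X × Equiv.Perm (Fin n) :=
      { toFun := fun x => (1, (x 0).right)
        map_one' := rfl
        map_mul' := fun x y => by
          ext
          · simp
          · rfl }
    refine ⟨1, 1, ι, MonoidHom.inl X _, ?_, ?_, ?_, ?_⟩
    · intro x y hxy
      have h : (x 0).right = (y 0).right := congrArg Prod.snd hxy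
      funext i
      rw [Subsingleton.elim i 0]
      refine SemidirectProduct.ext ?_ h
      funext j
      rfl
    · ext ⟨a, σ⟩
      rw [MonoidHom.mem_ker, MonoidHom.mem_range]
      constructor
      · rintro ⟨x, hx⟩
        exact (congrArg Prod.fst hx).symm
      · intro h
        have h' : a = 1 := h
        subst h'
        exact ⟨fun _ => ⟨1, σ⟩, rfl⟩
    · intro w
      rfl
    · intro w x
      apply Prod.ext
      · change w * 1 = 1 * w
        simp
      · change 1 * (x 0).right = (x ((1 : Equiv.Perm (Fin 1)) 0)).right * 1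
        simp

/-- The subgroup `1 × Stab(i)` of `X × S_n`. -/
theorem core_prod (X : Type) [Group X] [Finite X] (n : ℕ) (hn : 10 ≤ n) (hX : Nat.card X ≤ n) :
    2 ≤ Nat.card (X × Equiv.Perm (Fin n)) ∧
    ∃ U : Subgroup (X × Equiv.Perm (Fin n)), U.normalCore = ⊥ ∧
      8 * U.index * (U.index + 1) ≤ Nat.card (X × Equiv.Perm (Fin n)) := by
  have hX1 : 1 ≤ Nat.card X := Nat.card_pos
  have hcard : Nat.card (X × Equiv.Perm (Fin n)) = Nat.card X * n.factorial := by
    rw [Nat.card_prod, Nat.card_perm, Nat.card_fin]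
  have hfact : n ≤ n.factorial := Nat.self_le_factorial n
  refine ⟨?_, ?_⟩
  · rw [hcard]
    nlinarith
  · have i0 : Fin n := ⟨0, by omega⟩
    refine ⟨Subgroup.prod ⊥ (MulAction.stabilizer (Equiv.Perm (Fin n)) i0), ?_, ?_⟩
    · rw [eq_bot_iff]
      rintro ⟨x, σ⟩ hx
      rw [Subgroup.mem_bot]
      have h1 := Subgroup.normalCore_le _ hx
      rw [Subgroup.mem_prod] at h1
      have h2 : x = 1 := h1.1
      have h3 : σ = 1 := by
        ext i
        have h4 := hx ((1 : X), Equiv.swap i i0)
        rw [Subgroup.mem_prod] at h4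
        have h5 : (Equiv.swap i i0 * σ * (Equiv.swap i i0)⁻¹) i0 = i0 := h4.2
        rw [Equiv.swap_inv, Equiv.Perm.mul_apply, Equiv.Perm.mul_apply, Equiv.swap_apply_right]
          at h5
        have h6 := congrArg (Equiv.swap i i0) h5
        rw [Equiv.swap_apply_self, Equiv.swap_apply_right] at h6
        rw [h6]
        rfl
      rw [h2, h3]
      rfl
    · have hi : (Subgroup.prod (⊥ : Subgroup X)
          (MulAction.stabilizer (Equiv.Perm (Fin n)) i0)).index = Nat.card X * n := by
        rw [Subgroup.index_prod, Subgroup.index_bot, MulAction.index_stabilizer_of_transitive]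
        rw [Nat.card_fin]
      rw [hi, hcard]
      have h3 : ∀ m : ℕ, 16 * (m + 10) ^ 3 ≤ (m + 10).factorial := by
        intro m
        induction m with
        | zero => decide
        | succ m ih =>
          have e : (m + 1 + 10).factorial = (m + 11) * (m + 10).factorial := by
            rw [show m + 1 + 10 = (m + 10) + 1 by ring, Nat.factorial_succ]
          rw [e]
          have : 16 * (m + 1 + 10) ^ 3 ≤ (m + 11) * (16 * (m + 10) ^ 3) := by
            ring_nf
            nlinarith [sq_nonneg m, Nat.zero_le m]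
          exact this.trans (Nat.mul_le_mul_left _ ih)
      have h4 : 16 * n ^ 3 ≤ n.factorial := by
        obtain ⟨m, rfl⟩ := Nat.exists_eq_add_of_le hn
        rw [show 10 + m = m + 10 by ring]
        exact h3 m
      have h5 : Nat.card X * n + 1 ≤ 2 * n ^ 2 := by nlinarith
      calc 8 * (Nat.card X * n) * (Nat.card X * n + 1)
          ≤ 8 * (Nat.card X * n) * (2 * n ^ 2) := Nat.mul_le_mul_left _ h5
        _ = Nat.card X * (16 * n ^ 3) := by ring
        _ ≤ Nat.card X * n.factorial := Nat.mul_le_mul_left _ h4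

end Pool.Agent.Q24.ML
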